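import Pool.Agent.Lib.LWR.Gr

/-!
Growth for fields of transcendence degree `n`, simultaneously for all products of at most `D`
factors. The proof is the one of `LWR.growth_of_trdeg`.
-/

namespace LX

/-- Growth of exponent `n` for products of at most `D` factors. -/
def Gr (R K : Type*) [Field R] [Field K] [Algebra R K] (n : ℕ) : Prop :=
  ∀ (S : Finset K) (D : ℕ), ∃ E c : ℕ, 0 < E ∧ ∀ M : ℕ,
    ∃ (e : Fin E × (Fin n → Fin M) → K) (e' : (i : ℕ) → Fin E × (Fin n → Fin (c + i * M)) → K),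
      LinearIndependent R e ∧ ∀ g ∈ S, ∀ (s : Finset (Fin D))
        (κ : Fin D → Fin E × (Fin n → Fin M)),
        g * ∏ i ∈ s, e (κ i) ∈ Submodule.span R (Set.range (e' s.card))

private theorem B2_mono_li {R K : Type*} [Field R] [Field K] [Algebra R K] {n : ℕ} {x : Fin n → K}
    (hx : AlgebraicIndependent R x) :
    LinearIndependent R (fun d : Fin n →₀ ℕ => ∏ i, x i ^ d i) := by
  have h := (MvPolynomial.basisMonomials (Fin n) R).linearIndependent.map'
    (MvPolynomial.aeval x).toLinearMap (LinearMap.ker_eq_bot.2 hx)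
  have h2 : (fun d : Fin n →₀ ℕ => ∏ i, x i ^ d i) =
      (MvPolynomial.aeval x).toLinearMap ∘ ⇑(MvPolynomial.basisMonomials (Fin n) R) := by
    funext d
    rw [Function.comp_apply, MvPolynomial.coe_basisMonomials, AlgHom.toLinearMap_apply,
      MvPolynomial.aeval_monomial, map_one, one_mul, Finsupp.prod_fintype _ _ (fun i => pow_zero _)]
  rw [h2]
  exact h

/-- the monomials with exponents below `M` in a subfield -/
private theorem B2_mono_li' {R K : Type*} [Field R] [Field K] [Algebra R K] {n : ℕ} {x : Fin n → K}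
    (hx : AlgebraicIndependent R x) (F : IntermediateField R K) (hF : ∀ i, x i ∈ F) (M : ℕ) :
    LinearIndependent R (fun k : Fin n → Fin M =>
      (∏ i, (⟨x i, hF i⟩ : F) ^ (k i : ℕ) : F)) := by
  have h := (B2_mono_li hx).comp
    (fun k : Fin n → Fin M => Finsupp.equivFunOnFinite.symm fun i => (k i : ℕ)) (by
      intro k k' hk
      funext i
      have h1 := DFunLike.congr_fun hk i
      simp only [Finsupp.equivFunOnFinite_symm_apply_apply] at h1
      exact Fin.ext h1)
  refine LinearIndependent.of_comp (F.val.toLinearMap) ?_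
  convert h using 1
  funext k
  simp

open scoped IntermediateField.algebraAdjoinAdjoin in
/-- common denominators -/
private theorem B2_denoms {R K : Type*} [Field R] [Field K] [Algebra R K] {n : ℕ} (x : Fin n → K)
    {ι : Type*} [Finite ι] (f : ι → K)
    (hf : ∀ i, f i ∈ IntermediateField.adjoin R (Set.range x)) :
    ∃ (Q : K) (P : ι → MvPolynomial (Fin n) R), Q ≠ 0 ∧
      ∀ i, MvPolynomial.aeval x (P i) = Q * f i := by
  obtain ⟨Q, hQ⟩ := IsLocalization.exist_integer_multiples_of_finite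
    (nonZeroDivisors (Algebra.adjoin R (Set.range x)))
    (fun i => (⟨f i, hf i⟩ : IntermediateField.adjoin R (Set.range x)))
  have hP : ∀ i, ∃ P : MvPolynomial (Fin n) R,
      MvPolynomial.aeval x P = ((Q : Algebra.adjoin R (Set.range x)) : K) * f i := by
    intro i
    obtain ⟨y, hy⟩ := hQ i
    have h1 : (y : K) ∈ (MvPolynomial.aeval (R := R) x).range := by
      rw [← Algebra.adjoin_range_eq_range_aeval]
      exact y.2
    obtain ⟨P, hP⟩ := h1
    refine ⟨P, ?_⟩
    have h2 := congrArg Subtype.val hy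
    exact hP.trans h2
  choose P hP using hP
  refine ⟨((Q : Algebra.adjoin R (Set.range x)) : K), P, ?_, hP⟩
  intro h0
  exact nonZeroDivisors.ne_zero Q.2 (Subtype.ext h0)

theorem gr_of_trdeg (R K : Type*) [Field R] [Field K] [Algebra R K] (n : ℕ)
    (h : Algebra.trdeg R K = n) : Gr R K n := by
  classical
  -- a transcendence basis
  obtain ⟨s, hs⟩ := exists_isTranscendenceBasis R K
  have hcard : Cardinal.mk s = n := by rw [hs.cardinalMk_eq_trdeg, h]
  obtain ⟨eqv⟩ := Cardinal.mk_eq_nat_iff.1 hcard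
  obtain ⟨x, hx⟩ : ∃ x : Fin n → K, IsTranscendenceBasis R x :=
    ⟨_, hs.comp_equiv eqv.symm⟩
  intro S D
  set F : IntermediateField R K := IntermediateField.adjoin R (Set.range x) with hFdef
  have hxF : ∀ i, x i ∈ F := fun i => IntermediateField.subset_adjoin R _ ⟨i, rfl⟩
  have halg : Algebra.IsAlgebraic F K := hx.isAlgebraic_field
  set K₁ : IntermediateField F K := IntermediateField.adjoin F (S : Set K) with hK₁
  have hS : ∀ g ∈ S, g ∈ K₁ := fun g hg => IntermediateField.subset_adjoin F _ hg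
  have hfd : FiniteDimensional F K₁ := IntermediateField.finiteDimensional_adjoin
    (fun g _ => (Algebra.IsAlgebraic.isAlgebraic g).isIntegral)
  set E : ℕ := Module.finrank F K₁ with hE
  have hE0 : 0 < E := Module.finrank_pos
  set ω := Module.finBasis F K₁ with hω
  -- the coefficients and their common denominator
  let f : {g // g ∈ S} × Finset (Fin D) × (Fin D → Fin E) × Fin E → F := fun t =>
    ω.repr ((⟨t.1.1, hS _ t.1.2⟩ : K₁) * ∏ i ∈ t.2.1, ω (t.2.2.1 i)) t.2.2.2
  obtain ⟨Q, P, hQ, hP⟩ := B2_denoms x (fun t => (f t : K)) (fun t => (f t).2)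
  set c : ℕ := (Finset.univ.sup fun t : {g // g ∈ S} × Finset (Fin D) × (Fin D → Fin E) × Fin E =>
    Finset.univ.sup fun j => (P t).degreeOf j) + 1 with hc
  have hdeg : ∀ t, ∀ d ∈ (P t).support, ∀ j, d j < c := by
    intro t d hd j
    have h1 := MvPolynomial.monomial_le_degreeOf j hd
    have h2 : (P t).degreeOf j ≤ Finset.univ.sup fun j => (P t).degreeOf j :=
      Finset.le_sup (f := fun j => (P t).degreeOf j) (Finset.mem_univ j)
    have h3 : (Finset.univ.sup fun j => (P t).degreeOf j) ≤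
        Finset.univ.sup fun t : {g // g ∈ S} × Finset (Fin D) × (Fin D → Fin E) × Fin E =>
          Finset.univ.sup fun j => (P t).degreeOf j :=
      Finset.le_sup (f := fun t => Finset.univ.sup fun j => (P t).degreeOf j) (Finset.mem_univ t)
    omega
  refine ⟨E, c, hE0, fun M => ⟨fun p => (ω p.1 : K) * ∏ j, x j ^ (p.2 j : ℕ),
    fun _ p => (ω p.1 : K) * Q⁻¹ * ∏ j, x j ^ (p.2 j : ℕ), ?_, ?_⟩⟩
  · have h1 := B2_mono_li' hx.1 F hxF M
    have h2 : LinearIndependent F (fun a : Fin E => (ω a : K)) :=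
      ω.linearIndependent.map' K₁.val.toLinearMap
        (LinearMap.ker_eq_bot.2 K₁.val.toRingHom.injective)
    have h3 := (linearIndependent_smul h1 h2).comp
      (Prod.swap : Fin E × (Fin n → Fin M) → (Fin n → Fin M) × Fin E) Prod.swap_injective
    convert h3 using 1
    funext p
    rw [Function.comp_apply, IntermediateField.smul_def, smul_eq_mul, mul_comm]
    simp
  · intro g hg s κ
    have hexp : g * ∏ i ∈ s, (ω (κ i).1 : K) =
        ∑ b, (f (⟨g, hg⟩, s, fun i => (κ i).1, b) : K) * ω b := by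
      have h1 := ω.sum_repr ((⟨g, hS g hg⟩ : K₁) * ∏ i ∈ s, ω (κ i).1)
      have h2 := congrArg (fun y : K₁ => (y : K)) h1
      have h0 : ((∏ i ∈ s, ω (κ i).1 : K₁) : K) = ∏ i ∈ s, (ω (κ i).1 : K) :=
        map_prod K₁.val (fun i => ω (κ i).1) s
      simp only [IntermediateField.coe_sum, IntermediateField.coe_mul, h0] at h2
      rw [← h2]
      rfl
    have hm : ∀ j, ∑ i ∈ s, ((κ i).2 j : ℕ) ≤ s.card * M := by
      intro j
      have h1 : ∑ i ∈ s, ((κ i).2 j : ℕ) ≤ ∑ _i ∈ s, M :=
        Finset.sum_le_sum fun i _ => ((κ i).2 j).2.le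
      simpa using h1
    have hprod : ∏ i ∈ s, ((ω (κ i).1 : K) * ∏ j, x j ^ ((κ i).2 j : ℕ)) =
        (∏ i ∈ s, (ω (κ i).1 : K)) * ∏ j, x j ^ (∑ i ∈ s, ((κ i).2 j : ℕ)) := by
      rw [Finset.prod_mul_distrib, Finset.prod_comm]
      congr 1
      exact Finset.prod_congr rfl fun j _ => Finset.prod_pow_eq_pow_sum _ _ _
    show g * ∏ i ∈ s, ((ω (κ i).1 : K) * ∏ j, x j ^ ((κ i).2 j : ℕ)) ∈ _
    rw [hprod, ← mul_assoc, hexp, Finset.sum_mul]
    refine Submodule.sum_mem _ fun b _ => ?_
    have hP' := hP (⟨g, hg⟩, s, fun i => (κ i).1, b)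
    have hval : (f (⟨g, hg⟩, s, fun i => (κ i).1, b) : K) =
        Q⁻¹ * MvPolynomial.aeval x (P (⟨g, hg⟩, s, fun i => (κ i).1, b)) := by
      rw [hP', ← mul_assoc, inv_mul_cancel₀ hQ, one_mul]
    rw [hval, MvPolynomial.aeval_def, MvPolynomial.eval₂_eq', Finset.mul_sum, Finset.sum_mul,
      Finset.sum_mul]
    refine Submodule.sum_mem _ fun d hd => ?_
    have hlt : ∀ j, d j + ∑ i ∈ s, ((κ i).2 j : ℕ) < c + s.card * M := fun j => by
      have h1 := hdeg _ d hd j
      have h2 := hm j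
      omega
    have hterm : Q⁻¹ * ((algebraMap R K) (MvPolynomial.coeff d
        (P (⟨g, hg⟩, s, fun i => (κ i).1, b))) * ∏ j, x j ^ d j) * (ω b : K) *
          ∏ j, x j ^ (∑ i ∈ s, ((κ i).2 j : ℕ)) =
        MvPolynomial.coeff d (P (⟨g, hg⟩, s, fun i => (κ i).1, b)) •
          ((ω b : K) * Q⁻¹ * ∏ j, x j ^ (d j + ∑ i ∈ s, ((κ i).2 j : ℕ))) := by
      rw [Algebra.smul_def]
      simp only [pow_add, Finset.prod_mul_distrib]
      ring
    rw [hterm]
    exact Submodule.smul_mem _ _ (Submodule.subset_span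
      ⟨(b, fun j => ⟨d j + ∑ i ∈ s, ((κ i).2 j : ℕ), hlt j⟩), rfl⟩)

end LX
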