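import Pool.Agent.Lib.LX56.Vec
import Pool.Agent.Lib.LX56.Gr

/-!
Several vectors over `K[i]` for a field of transcendence degree one: systems of polynomials of
different degrees in the coordinates of `k` vectors and their conjugates, homogeneous of nonzero
weights for the torus, have a common zero in nonzero vectors with `m` coordinates, if `m` is larger
than the sum of the degrees.
-/

namespace LX

open LW LWR

/-- The factor of a position (`1` for `none`). -/
def cjo {A : Type} [CommRing A] {k m : ℕ} (w : Fin k → Fin m → Cx A) :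
    Option (Fin k × Bool) → Fin m → Cx A
  | none, _ => 1
  | some p, l => cj (w p.1 l) p.2

/-- The torus weight of a position. -/
def wo {k : ℕ} (a : Fin k) : Option (Fin k × Bool) → ℤ
  | none => 0
  | some p => if p.1 = a then (if p.2 then (-1 : ℤ) else 1) else 0

/-- Exponents. -/
def ea {k : ℕ} (Q : Fin k → ℕ) : Option (Fin k × Bool) → ℕ
  | none => 0
  | some p => if p.2 then 0 else Q p.1

/-- Exponents of the conjugates. -/
def eb {k : ℕ} (Q : Fin k → ℕ) : Option (Fin k × Bool) → ℕ
  | none => 0
  | some p => if p.2 then Q p.1 else 0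

theorem ea_eb {k d : ℕ} (o : Option (Fin k × Bool)) :
    ((ea (fun a : Fin k => (2 * d + 1) ^ (a : ℕ)) o : ℕ) : ℤ) -
      (eb (fun a : Fin k => (2 * d + 1) ^ (a : ℕ)) o : ℕ) =
      ∑ a : Fin k, ((2 * d + 1 : ℕ) : ℤ) ^ (a : ℕ) * wo a o := by
  rcases o with _ | p
  · simp [ea, eb, wo]
  · simp only [ea, eb, wo]
    rw [Finset.sum_eq_single p.1 (fun b _ hb => by rw [if_neg (Ne.symm hb), mul_zero])
      (fun h => (h (Finset.mem_univ _)).elim), if_pos rfl]
    split_ifs <;> simp

/-- The vectors. -/
theorem kvec2 (R K : Type) [Field R] [IsRealClosed R] [Field K] [Algebra R K]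
    (h : Gr R K 1) {J : Type} [Fintype J] (k d m : ℕ) (dg : J → ℕ)
    (S : J → (Fin d → Option (Fin k × Bool)) → Bool) (χ : J → Fin k → ℤ) (hχ : ∀ j, χ j ≠ 0)
    (hχd : ∀ j a, |χ j a| ≤ d) (hS : ∀ j σ, S j σ = true → ∀ a, ∑ i, wo a (σ i) = χ j a)
    (hdg : ∀ j σ, S j σ = true → (Finset.univ.filter fun i => σ i ≠ none).card = dg j)
    (c : J → (Fin d → Option (Fin k × Bool)) → (Fin d → Fin m) → Cx K)
    (hcard : ∑ j, dg j < m) :
    ∃ w : Fin k → Fin m → Cx K, (∀ a, w a ≠ 0) ∧ ∀ j,
      ∑ σ, ∑ τ, (if S j σ then c j σ τ * ∏ i, cjo w (σ i) (τ i) else 0) = 0 := by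
  classical
  let coef : Finset K := (Finset.univ.image fun
    p : (J × (Fin d → Option (Fin k × Bool))) × (Fin d → Fin m) => (c p.1.1 p.1.2 p.2).re) ∪
      Finset.univ.image fun p : (J × (Fin d → Option (Fin k × Bool))) × (Fin d → Fin m) =>
        (c p.1.1 p.1.2 p.2).im
  obtain ⟨E, c₀, hE, hM⟩ := h coef d
  set M : ℕ := Fintype.card J * c₀ + 1 with hMdef
  obtain ⟨e, e', hli, hsp⟩ := hM M
  let I := Fin E × (Fin 1 → Fin M)
  let I' : J → Type := fun j => Fin E × (Fin 1 → Fin (c₀ + dg j * M))
  let κ₀ : I := (⟨0, hE⟩, fun _ => ⟨0, by omega⟩)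
  let ψ := cxMap (algebraMap R K)
  let sp : (Fin d → Option (Fin k × Bool)) → Finset (Fin d) := fun σ =>
    Finset.univ.filter fun i => σ i ≠ none
  have hC : ∀ (j : J) (σ : Fin d → Option (Fin k × Bool)) (τ : Fin d → Fin m) (κ : Fin d → I),
      ∃ C : I' j → Cx R, S j σ = true → ∑ q, ψ (C q) * algebraMap K (Cx K) (e' (dg j) q) =
        c j σ τ * algebraMap K (Cx K) (∏ i ∈ sp σ, e (κ i)) := by
    intro j σ τ κ
    by_cases hj : S j σ = true
    · have hcd : (sp σ).card = dg j := hdg j σ hj
      have m1 := hsp (c j σ τ).re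
        (Finset.mem_union_left _ (Finset.mem_image.2 ⟨((j, σ), τ), Finset.mem_univ _, rfl⟩))
        (sp σ) κ
      have m2 := hsp (c j σ τ).im
        (Finset.mem_union_right _ (Finset.mem_image.2 ⟨((j, σ), τ), Finset.mem_univ _, rfl⟩))
        (sp σ) κ
      rw [hcd] at m1 m2
      obtain ⟨C1, hC1⟩ := (Submodule.mem_span_range_iff_exists_fun R).1 m1
      obtain ⟨C2, hC2⟩ := (Submodule.mem_span_range_iff_exists_fun R).1 m2
      refine ⟨fun q => ⟨C1 q, C2 q⟩, fun _ => ?_⟩
      have e1 : (∑ q, ψ (⟨C1 q, C2 q⟩ : Cx R) * algebraMap K (Cx K) (e' (dg j) q)).re =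
          ∑ q, C1 q • e' (dg j) q := by
        rw [← QuadraticAlgebra.reₗ_apply, map_sum]
        refine Finset.sum_congr rfl fun k _ => ?_
        simp [ψ, cxMap_re, Algebra.smul_def]
      have e2 : (∑ q, ψ (⟨C1 q, C2 q⟩ : Cx R) * algebraMap K (Cx K) (e' (dg j) q)).im =
          ∑ q, C2 q • e' (dg j) q := by
        rw [← QuadraticAlgebra.imₗ_apply, map_sum]
        refine Finset.sum_congr rfl fun k _ => ?_
        simp [ψ, cxMap_im, Algebra.smul_def]
      refine QuadraticAlgebra.ext ?_ ?_
      · rw [e1, hC1, QuadraticAlgebra.re_mul]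
        generalize (∏ i ∈ sp σ, e (κ i)) = P
        simp
      · rw [e2, hC2, QuadraticAlgebra.im_mul]
        generalize (∏ i ∈ sp σ, e (κ i)) = P
        simp
    · exact ⟨0, fun h => absurd h hj⟩
  choose C hC using hC
  let Q : Fin k → ℕ := fun a => (2 * d + 1) ^ (a : ℕ)
  have hcard' : Fintype.card (Σ j, I' j) < Fintype.card (Fin m × I) := by
    rw [Fintype.card_sigma]
    simp only [I, I', Fintype.card_prod, Fintype.card_fin, Fintype.card_fun, pow_one]
    rw [← Finset.mul_sum, Finset.sum_add_distrib, ← Finset.sum_mul, Finset.sum_const,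
      Finset.card_univ, smul_eq_mul]
    calc E * (Fintype.card J * c₀ + (∑ j, dg j) * M) < E * (M + (∑ j, dg j) * M) :=
          Nat.mul_lt_mul_of_pos_left (by omega) hE
      _ = E * (((∑ j, dg j) + 1) * M) := by ring
      _ ≤ E * (m * M) := Nat.mul_le_mul_left _ (Nat.mul_le_mul_right _ hcard)
      _ = m * (E * M) := by ring
  obtain ⟨v, hv0, hv⟩ := gen_rc (ι := Fin m × I) (J := Σ j, I' j)
    (M := (Fin d → Option (Fin k × Bool)) × (Fin d → Fin m) × (Fin d → I)) (D := d) hcard'
    (fun j t => S j.1 t.1 && decide (∀ i, t.1 i = none → t.2.2 i = κ₀))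
    (fun _ t i => (t.2.1 i, t.2.2 i))
    (fun _ t i => ea Q (t.1 i)) (fun _ t i => eb Q (t.1 i))
    (fun j => ∑ a : Fin k, ((2 * d + 1 : ℕ) : ℤ) ^ (a : ℕ) * χ j.1 a)
    (fun j => weight_ne d (χ j.1) (hχ j.1) (hχd j.1)) (by
      intro j t ht
      rw [Finset.sum_congr rfl fun i _ => ea_eb (t.1 i), Finset.sum_comm]
      refine Finset.sum_congr rfl fun a _ => ?_
      rw [← Finset.mul_sum, hS j.1 t.1 (by
        rw [Bool.and_eq_true] at ht
        exact ht.1) a]) R (fun j t => C j.1 t.1 t.2.1 t.2.2 j.2)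
  let w : Fin k → Fin m → Cx K := fun a l =>
    ∑ κ : I, ψ (v (l, κ) ^ Q a) * algebraMap K (Cx K) (e κ)
  refine ⟨w, ?_, ?_⟩
  · intro a hw0
    obtain ⟨⟨l, κ⟩, hlκ⟩ := Function.ne_iff.1 hv0
    have hl := congrFun hw0 l
    have hre := congrArg QuadraticAlgebra.re hl
    have him := congrArg QuadraticAlgebra.im hl
    have e1 : (w a l).re = ∑ k, (v (l, k) ^ Q a).re • e k := by
      simp only [w]
      rw [← QuadraticAlgebra.reₗ_apply, map_sum]
      refine Finset.sum_congr rfl fun k _ => ?_
      generalize v (l, k) ^ Q a = z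
      simp [ψ, cxMap_re, Algebra.smul_def]
    have e2 : (w a l).im = ∑ k, (v (l, k) ^ Q a).im • e k := by
      simp only [w]
      rw [← QuadraticAlgebra.imₗ_apply, map_sum]
      refine Finset.sum_congr rfl fun k _ => ?_
      generalize v (l, k) ^ Q a = z
      simp [ψ, cxMap_im, Algebra.smul_def]
    have h1 := Fintype.linearIndependent_iff.1 hli (fun k => (v (l, k) ^ Q a).re)
      (by rw [← e1]; exact hre) κ
    have h2 := Fintype.linearIndependent_iff.1 hli (fun k => (v (l, k) ^ Q a).im)
      (by rw [← e2]; exact him) κ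
    have h3 : v (l, κ) ^ Q a = 0 := QuadraticAlgebra.ext h1 h2
    exact pow_ne_zero _ hlκ h3
  · intro j
    have hterm : ∀ σ τ, (if S j σ then c j σ τ * ∏ i, cjo w (σ i) (τ i) else 0) =
        ∑ q : I' j, (∑ κ : Fin d → I, ψ (if S j σ && decide (∀ i, σ i = none → κ i = κ₀) then
          C j σ τ κ q * mono v (fun i => (τ i, κ i)) (fun i => ea Q (σ i))
            (fun i => eb Q (σ i)) else 0)) * algebraMap K (Cx K) (e' (dg j) q) := by
      intro σ τ
      by_cases hSj : S j σ = true
      · simp only [hSj, if_true, Bool.true_and, decide_eq_true_eq]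
        have h3 : ∀ i, cjo w (σ i) (τ i) = ∑ κ : I, (if (σ i = none → κ = κ₀) then
            ψ (v (τ i, κ) ^ ea Q (σ i) * star (v (τ i, κ)) ^ eb Q (σ i)) *
              algebraMap K (Cx K) (if σ i ≠ none then e κ else 1) else 0) := by
          intro i
          rcases hσ : σ i with _ | p
          · simp only [cjo, ea, eb, pow_zero, mul_one, map_one, ne_eq, not_true_eq_false,
              if_false, true_imp_iff]
            rw [Finset.sum_eq_single κ₀ (fun b _ hb => if_neg hb)
              (fun h => absurd (Finset.mem_univ _) h), if_pos rfl]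
          · simp only [cjo, ea, eb, cj, w, reduceCtorEq, false_imp_iff, if_true, ne_eq,
              not_false_eq_true]
            by_cases hb : p.2 = true
            · simp only [if_pos hb, pow_zero, one_mul]
              rw [star_sum]
              refine Finset.sum_congr rfl fun κ _ => ?_
              rw [star_mul', star_alg, ← cxMap_star, star_cx]
            · simp only [if_neg hb, pow_zero, mul_one]
        have h4 : ∏ i, cjo w (σ i) (τ i) = ∑ κ : Fin d → I,
            (if (∀ i, σ i = none → κ i = κ₀) then ψ (mono v (fun i => (τ i, κ i))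
              (fun i => ea Q (σ i)) (fun i => eb Q (σ i))) *
              algebraMap K (Cx K) (∏ i ∈ sp σ, e (κ i)) else 0) := by
          rw [Finset.prod_congr rfl fun i _ => h3 i]
          have h5 := Finset.prod_univ_sum (fun _ : Fin d => (Finset.univ : Finset I))
            (fun i κ => (if (σ i = none → κ = κ₀) then
            ψ (v (τ i, κ) ^ ea Q (σ i) * star (v (τ i, κ)) ^ eb Q (σ i)) *
              algebraMap K (Cx K) (if σ i ≠ none then e κ else 1) else 0))
          rw [Fintype.piFinset_univ] at h5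
          rw [h5]
          refine Finset.sum_congr rfl fun κ _ => ?_
          rw [Finset.prod_ite_zero]
          simp only [Finset.mem_univ, true_imp_iff]
          refine if_congr Iff.rfl ?_ rfl
          rw [Finset.prod_mul_distrib, mono, map_prod, ← map_prod (algebraMap K (Cx K))]
          simp only [sp]
          rw [Finset.prod_filter]
        rw [h4, Finset.mul_sum]
        have h6 : ∀ κ : Fin d → I, c j σ τ * (if (∀ i, σ i = none → κ i = κ₀) then
            ψ (mono v (fun i => (τ i, κ i)) (fun i => ea Q (σ i)) (fun i => eb Q (σ i))) *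
              algebraMap K (Cx K) (∏ i ∈ sp σ, e (κ i)) else 0) =
            ∑ q : I' j, ψ (if (∀ i, σ i = none → κ i = κ₀) then C j σ τ κ q *
              mono v (fun i => (τ i, κ i)) (fun i => ea Q (σ i)) (fun i => eb Q (σ i)) else 0) *
                algebraMap K (Cx K) (e' (dg j) q) := by
          intro κ
          by_cases hκ : ∀ i, σ i = none → κ i = κ₀
          · simp only [if_pos hκ]
            rw [mul_left_comm, ← hC j σ τ κ hSj, Finset.mul_sum]
            refine Finset.sum_congr rfl fun q _ => ?_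
            rw [map_mul]
            ring
          · simp only [if_neg hκ, mul_zero, map_zero, zero_mul, Finset.sum_const_zero]
        rw [Finset.sum_congr rfl fun κ _ => h6 κ, Finset.sum_comm]
        refine Finset.sum_congr rfl fun q _ => ?_
        rw [Finset.sum_mul]
      · simp [hSj]
    rw [Finset.sum_congr rfl fun σ _ => Finset.sum_congr rfl fun τ _ => hterm σ τ]
    have hq : ∀ q : I' j, ∑ σ, ∑ τ, ∑ κ : Fin d → I,
        ψ (if S j σ && decide (∀ i, σ i = none → κ i = κ₀) then
          C j σ τ κ q * mono v (fun i => (τ i, κ i)) (fun i => ea Q (σ i))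
            (fun i => eb Q (σ i)) else 0) = 0 := by
      intro q
      have h1 := congrArg ψ (hv ⟨j, q⟩)
      rw [map_zero] at h1
      rw [← h1]
      simp only [gen, map_sum]
      rw [Fintype.sum_prod_type]
      refine Finset.sum_congr rfl fun σ _ => ?_
      rw [Fintype.sum_prod_type]
    have h7 : ∑ σ, ∑ τ, ∑ q : I' j, (∑ κ : Fin d → I,
        ψ (if S j σ && decide (∀ i, σ i = none → κ i = κ₀) then
          C j σ τ κ q * mono v (fun i => (τ i, κ i)) (fun i => ea Q (σ i))
            (fun i => eb Q (σ i)) else 0)) * algebraMap K (Cx K) (e' (dg j) q) =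
        ∑ q : I' j, (∑ σ, ∑ τ, ∑ κ : Fin d → I,
        ψ (if S j σ && decide (∀ i, σ i = none → κ i = κ₀) then
          C j σ τ κ q * mono v (fun i => (τ i, κ i)) (fun i => ea Q (σ i))
            (fun i => eb Q (σ i)) else 0)) * algebraMap K (Cx K) (e' (dg j) q) := by
      simp only [Finset.sum_mul]
      rw [Finset.sum_congr rfl fun σ _ => Finset.sum_comm, Finset.sum_comm]
    rw [h7]
    simp only [hq, zero_mul, Finset.sum_const_zero]

end LX
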