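import Pool.Agent.Lib.LX56.Res
import Pool.Agent.Lib.LX56.Vec2

/-!
The restriction of a form `f` of degree `2 e` to the points `s * v + ∑ a, tr (z a * w a)` is a form
of degree `e` in `s ^ 2` and the norms of the `z a`, for suitable nonzero vectors `w a` and every
vector `v`.
-/

namespace LX

open LW LWR

/-- The point `s * v + ∑ a, tr (z a * w a)`. -/
def ptv {K : Type} [CommRing K] {k m : ℕ} (v : Fin m → K) (w : Fin k → Fin m → Cx K) (s : K)
    (z : Fin k → Cx K) (l : Fin m) : K := s * v l + pt w z l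

/-- The factors of `z`. -/
def zo {K : Type} [CommRing K] {k : ℕ} (s : K) (z : Fin k → Cx K) : Option (Fin k × Bool) → Cx K
  | none => algebraMap K (Cx K) s
  | some p => cj (z p.1) p.2

/-- The real factors. -/
def vo {K : Type} [CommRing K] {k m : ℕ} (v : Fin m → K) : Option (Fin k × Bool) → Fin m → K
  | none, l => v l
  | some _, _ => 1

theorem algebraMap_ptv {K : Type} [CommRing K] {k m : ℕ} (v : Fin m → K)
    (w : Fin k → Fin m → Cx K) (s : K) (z : Fin k → Cx K) (l : Fin m) :
    algebraMap K (Cx K) (ptv v w s z l) =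
      ∑ o : Option (Fin k × Bool), zo s z o * (algebraMap K (Cx K) (vo v o l) * cjo w o l) := by
  rw [Fintype.sum_option, ptv, map_add, algebraMap_pt, map_mul]
  simp only [zo, vo, cjo, map_one, one_mul, mul_one]

/-- The coefficients of the restriction. -/
def cof2 {K : Type} [CommRing K] {d k m : ℕ} (c : (Fin d → Fin m) → K) (v : Fin m → K)
    (w : Fin k → Fin m → Cx K) (σ : Fin d → Option (Fin k × Bool)) : Cx K :=
  ∑ τ : Fin d → Fin m, algebraMap K (Cx K) (c τ * ∏ i, vo v (σ i) (τ i)) *
    ∏ i, cjo w (σ i) (τ i)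

theorem expand2 {K : Type} [CommRing K] {d k m : ℕ} (c : (Fin d → Fin m) → K) (v : Fin m → K)
    (w : Fin k → Fin m → Cx K) (s : K) (z : Fin k → Cx K) :
    algebraMap K (Cx K) (ev c (ptv v w s z)) =
      ∑ σ : Fin d → Option (Fin k × Bool), (∏ i, zo s z (σ i)) * cof2 c v w σ := by
  simp only [ev, map_sum, map_mul, map_prod, algebraMap_ptv, cof2]
  simp_rw [Finset.prod_univ_sum, Fintype.piFinset_univ, Finset.mul_sum]
  rw [Finset.sum_comm]
  refine Finset.sum_congr rfl fun σ _ => Finset.sum_congr rfl fun τ _ => ?_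
  rw [Finset.prod_mul_distrib, Finset.prod_mul_distrib]
  ring

/-- The other conjugate. -/
def swo {k : ℕ} (o : Option (Fin k × Bool)) : Option (Fin k × Bool) := o.map sw

theorem swo_swo {k : ℕ} (o : Option (Fin k × Bool)) : swo (swo o) = o := by
  rcases o with _ | p
  · rfl
  · simp [swo, sw_sw]

/-- The type of `σ`. -/
def ty2 {d k : ℕ} (σ : Fin d → Option (Fin k × Bool)) : Sym (Option (Fin k × Bool)) d :=
  ⟨(Finset.univ : Finset (Fin d)).val.map σ, by simp⟩

/-- The weight of a type. -/
def ch2 {d k : ℕ} (t : Sym (Option (Fin k × Bool)) d) (a : Fin k) : ℤ :=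
  (t.1.count (some (a, false)) : ℤ) - t.1.count (some (a, true))

/-- The degree of a type. -/
def dg2 {d k : ℕ} (t : Sym (Option (Fin k × Bool)) d) : ℕ := d - t.1.count none

/-- The conjugate type. -/
def st2 {d k : ℕ} (t : Sym (Option (Fin k × Bool)) d) : Sym (Option (Fin k × Bool)) d := t.map swo

theorem st2_st2 {d k : ℕ} (t : Sym (Option (Fin k × Bool)) d) : st2 (st2 t) = t := by
  rw [st2, st2, Sym.map_map]
  have h : (swo ∘ swo : Option (Fin k × Bool) → Option (Fin k × Bool)) = id := funext swo_swo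
  rw [h, Sym.map_id]

theorem st2_ty2 {d k : ℕ} (σ : Fin d → Option (Fin k × Bool)) : ty2 (swo ∘ σ) = st2 (ty2 σ) := by
  apply Subtype.ext
  exact (Multiset.map_map swo σ (Finset.univ : Finset (Fin d)).val).symm

theorem ch2_st2 {d k : ℕ} (t : Sym (Option (Fin k × Bool)) d) (a : Fin k) :
    ch2 (st2 t) a = - ch2 t a := by
  have hinj : Function.Injective (swo : Option (Fin k × Bool) → Option (Fin k × Bool)) :=
    Function.LeftInverse.injective swo_swo
  have h1 : ∀ p, (st2 t).1.count (swo p) = t.1.count p := by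
    intro p
    have h2 : (st2 t).1 = t.1.map swo := rfl
    rw [h2, Multiset.count_map_eq_count' _ _ hinj]
  have h2 := h1 (some (a, false))
  have h3 := h1 (some (a, true))
  simp only [swo, Option.map_some, sw, Bool.not_false, Bool.not_true] at h2 h3
  simp only [ch2, h2, h3]
  ring

theorem ty2_count {d k : ℕ} (σ : Fin d → Option (Fin k × Bool)) (p : Option (Fin k × Bool)) :
    (ty2 σ).1.count p = (Finset.univ.filter fun i => σ i = p).card := by
  have h2 : (ty2 σ).1 = (Finset.univ : Finset (Fin d)).val.map σ := rfl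
  rw [h2, Multiset.count_map, ← Finset.filter_val, Finset.card_val]
  congr 1
  ext i
  simp [eq_comm]

theorem ch2_ty2 {d k : ℕ} (σ : Fin d → Option (Fin k × Bool)) (a : Fin k) :
    ∑ i, wo a (σ i) = ch2 (ty2 σ) a := by
  have h1 : ∀ p, ((ty2 σ).1.count p : ℤ) = ∑ i, (if σ i = p then (1 : ℤ) else 0) := by
    intro p
    rw [ty2_count, Finset.sum_boole]
  rw [ch2, h1, h1, ← Finset.sum_sub_distrib]
  refine Finset.sum_congr rfl fun i _ => ?_
  rcases hσ : σ i with _ | ⟨a', b⟩
  · simp [wo]
  · by_cases ha : a' = a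
    · subst ha
      cases b <;> simp [wo]
    · simp [wo, ha]

theorem dg2_ty2 {d k : ℕ} (σ : Fin d → Option (Fin k × Bool)) :
    (Finset.univ.filter fun i => σ i ≠ none).card = dg2 (ty2 σ) := by
  classical
  rw [dg2, ty2_count]
  have h1 := Finset.card_filter_add_card_filter_not (s := (Finset.univ : Finset (Fin d)))
    (fun i => σ i = none)
  rw [Finset.card_univ, Fintype.card_fin] at h1
  simp only [ne_eq]
  omega

theorem ch2_le {d k : ℕ} (t : Sym (Option (Fin k × Bool)) d) (a : Fin k) : |ch2 t a| ≤ d := by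
  have h1 : ∀ p, (t.1.count p : ℤ) ≤ d := by
    intro p
    have h2 := Multiset.count_le_card p t.1
    rw [t.2] at h2
    exact_mod_cast h2
  have h2 := h1 (some (a, false))
  have h3 := h1 (some (a, true))
  rw [ch2, abs_le]
  constructor
  · have : (0 : ℤ) ≤ t.1.count (some (a, false)) := by positivity
    linarith
  · have : (0 : ℤ) ≤ t.1.count (some (a, true)) := by positivity
    linarith

/-- The coefficient of a type. -/
noncomputable def Q2 {K : Type} [CommRing K] {d k m : ℕ} (c : (Fin d → Fin m) → K) (v : Fin m → K)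
    (w : Fin k → Fin m → Cx K) (t : Sym (Option (Fin k × Bool)) d) : Cx K := by
  classical
  exact ∑ σ, if ty2 σ = t then cof2 c v w σ else 0

theorem cof2_sw {K : Type} [CommRing K] {d k m : ℕ} (c : (Fin d → Fin m) → K) (v : Fin m → K)
    (w : Fin k → Fin m → Cx K) (σ : Fin d → Option (Fin k × Bool)) :
    cof2 c v w (swo ∘ σ) = star (cof2 c v w σ) := by
  simp only [cof2, star_sum, star_mul', star_prod, star_alg]
  refine Finset.sum_congr rfl fun τ _ => ?_
  have h1 : ∀ i, vo v ((swo ∘ σ) i) (τ i) = vo v (σ i) (τ i) := by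
    intro i
    rcases hσ : σ i with _ | ⟨a, b⟩ <;> simp [hσ, swo, vo]
  have h2 : ∀ i, cjo w ((swo ∘ σ) i) (τ i) = star (cjo w (σ i) (τ i)) := by
    intro i
    rcases hσ : σ i with _ | ⟨a, b⟩
    · simp [hσ, swo, cjo]
    · simp only [Function.comp_apply, hσ, swo, Option.map_some, sw, cjo, cj]
      cases b <;> simp
  simp only [h1, h2]

theorem Q2_st2 {K : Type} [CommRing K] {d k m : ℕ} (c : (Fin d → Fin m) → K) (v : Fin m → K)
    (w : Fin k → Fin m → Cx K) (t : Sym (Option (Fin k × Bool)) d) :
    Q2 c v w (st2 t) = star (Q2 c v w t) := by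
  classical
  have hinv : Function.Involutive (fun σ : Fin d → Option (Fin k × Bool) => swo ∘ σ) := by
    intro σ
    funext i
    exact swo_swo _
  simp only [Q2, star_sum]
  rw [← Equiv.sum_comp (Function.Involutive.toPerm _ hinv)]
  refine Finset.sum_congr rfl fun σ _ => ?_
  have h1 : Function.Involutive.toPerm _ hinv σ = swo ∘ σ := rfl
  rw [h1, st2_ty2, cof2_sw]
  have h2 : st2 (ty2 σ) = st2 t ↔ ty2 σ = t := by
    constructor
    · intro h
      have h3 := congrArg st2 h
      rwa [st2_st2, st2_st2] at h3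
    · rintro rfl
      rfl
  simp only [h2]
  split_ifs
  · rfl
  · simp

/-- The monomial of a type. -/
def Zt2 {K : Type} [CommRing K] {d k : ℕ} (s : K) (z : Fin k → Cx K)
    (t : Sym (Option (Fin k × Bool)) d) : Cx K := (t.1.map (zo s z)).prod

theorem Zt2_ty2 {K : Type} [CommRing K] {d k : ℕ} (s : K) (z : Fin k → Cx K)
    (σ : Fin d → Option (Fin k × Bool)) : Zt2 s z (ty2 σ) = ∏ i, zo s z (σ i) := by
  have h1 : (ty2 σ).1 = (Finset.univ : Finset (Fin d)).val.map σ := rfl
  rw [Zt2, h1, Multiset.map_map]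
  rfl

theorem count_zero {e k : ℕ} (t : Sym (Option (Fin k × Bool)) (2 * e)) (ht : ch2 t = 0) :
    t.1.count none / 2 + ∑ a, t.1.count (some (a, false)) = e ∧
      2 * (t.1.count none / 2) = t.1.count none := by
  have h2 : ∑ p : Option (Fin k × Bool), t.1.count p = 2 * e := by
    rw [Multiset.sum_count_eq_card (fun p _ => Finset.mem_univ p)]
    exact t.2
  rw [Fintype.sum_option, Fintype.sum_prod_type] at h2
  have h3 : ∀ a, ∑ b, t.1.count (some (a, b)) = 2 * t.1.count (some (a, false)) := by
    intro a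
    have h4 := congrFun ht a
    simp only [ch2, Pi.zero_apply] at h4
    rw [Fintype.sum_bool]
    omega
  simp only [h3] at h2
  rw [← Finset.mul_sum] at h2
  omega

theorem Zt2_zero {K : Type} [CommRing K] {e k : ℕ} (s : K) (z : Fin k → Cx K)
    (t : Sym (Option (Fin k × Bool)) (2 * e)) (ht : ch2 t = 0) :
    Zt2 s z t = algebraMap K (Cx K)
      ((s ^ 2) ^ (t.1.count none / 2) * ∏ a, nn (z a) ^ t.1.count (some (a, false))) := by
  classical
  have h1 : Zt2 s z t = ∏ p : Option (Fin k × Bool), zo s z p ^ t.1.count p := by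
    rw [Zt2, Finset.prod_multiset_map_count]
    refine Finset.prod_subset (Finset.subset_univ _) fun p _ hp => ?_
    rw [Multiset.mem_toFinset] at hp
    rw [Multiset.count_eq_zero_of_notMem hp, pow_zero]
  rw [h1, Fintype.prod_option, Fintype.prod_prod_type, map_mul, map_prod, ← pow_mul,
    (count_zero t ht).2]
  congr 1
  · simp [zo]
  · refine Finset.prod_congr rfl fun a _ => ?_
    rw [Fintype.prod_bool]
    have h2 : t.1.count (some (a, true)) = t.1.count (some (a, false)) := by
      have h3 := congrFun ht a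
      simp only [ch2, Pi.zero_apply] at h3
      omega
    simp only [h2, zo, cj, if_true, Bool.false_eq_true, if_false]
    rw [← mul_pow, map_pow, ← mul_star_eq, mul_comm]

/-- The restriction as a polynomial in `s ^ 2` and the norms. -/
noncomputable def F2 {K : Type} [CommRing K] {d k m : ℕ} (c : (Fin d → Fin m) → K) (v : Fin m → K)
    (w : Fin k → Fin m → Cx K) : MvPolynomial (Fin (k + 1)) K := by
  classical
  exact ∑ t : Sym (Option (Fin k × Bool)) d, if ch2 t = 0 then
    MvPolynomial.C (Q2 c v w t).re * (MvPolynomial.X 0 ^ (t.1.count none / 2) *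
      ∏ a : Fin k, MvPolynomial.X a.succ ^ t.1.count (some (a, false))) else 0

theorem F2_hom {K : Type} [CommRing K] {e k m : ℕ} (c : (Fin (2 * e) → Fin m) → K)
    (v : Fin m → K) (w : Fin k → Fin m → Cx K) : (F2 c v w).IsHomogeneous e := by
  classical
  rw [F2]
  refine MvPolynomial.IsHomogeneous.sum _ _ _ fun t _ => ?_
  split_ifs with ht
  · have h2 := (MvPolynomial.isHomogeneous_C (Fin (k + 1)) (Q2 c v w t).re).mul
      ((MvPolynomial.isHomogeneous_X_pow (R := K) (0 : Fin (k + 1)) (t.1.count none / 2)).mul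
      (MvPolynomial.IsHomogeneous.prod Finset.univ
        (fun a : Fin k => (MvPolynomial.X a.succ : MvPolynomial (Fin (k + 1)) K) ^
          t.1.count (some (a, false)))
        (fun a => t.1.count (some (a, false)))
        (fun a _ => MvPolynomial.isHomogeneous_X_pow _ _)))
    rwa [(count_zero t ht).1, zero_add] at h2
  · exact MvPolynomial.isHomogeneous_zero _ _ _

theorem eval_F2 {K : Type} [CommRing K] {e k m : ℕ} (c : (Fin (2 * e) → Fin m) → K)
    (v : Fin m → K) (w : Fin k → Fin m → Cx K)
    (hQ : ∀ t, Pos (ch2 t) → Q2 c v w t = 0) (s : K) (z : Fin k → Cx K) :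
    ev c (ptv v w s z) =
      MvPolynomial.eval (Fin.cons (s ^ 2) fun a => nn (z a)) (F2 c v w) := by
  classical
  have hQ' : ∀ t, ch2 t ≠ 0 → Q2 c v w t = 0 := by
    intro t ht
    rcases Pos.or ht with h | h
    · exact hQ t h
    · have h1 : ch2 (st2 t) = - ch2 t := funext fun a => ch2_st2 t a
      have h2 := hQ (st2 t) (by rwa [h1])
      rw [Q2_st2] at h2
      have h3 := congrArg star h2
      simpa using h3
  have h1 : algebraMap K (Cx K) (ev c (ptv v w s z)) = ∑ t, Zt2 s z t * Q2 c v w t := by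
    rw [expand2]
    simp only [Q2, Finset.mul_sum]
    rw [Finset.sum_comm]
    refine Finset.sum_congr rfl fun σ _ => ?_
    simp only [mul_ite, mul_zero]
    rw [Finset.sum_ite_eq Finset.univ (ty2 σ) (fun t => Zt2 s z t * cof2 c v w σ),
      if_pos (Finset.mem_univ _), Zt2_ty2]
  have h2 : ev c (ptv v w s z) = (algebraMap K (Cx K) (ev c (ptv v w s z))).re := rfl
  rw [h2, h1, F2, map_sum]
  have h3 : ∀ (S : Finset (Sym (Option (Fin k × Bool)) (2 * e)))
      (g : Sym (Option (Fin k × Bool)) (2 * e) → Cx K),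
      (∑ t ∈ S, g t).re = ∑ t ∈ S, (g t).re := by
    intro S g
    induction S using Finset.induction_on with
    | empty => simp
    | insert t S ht ih => rw [Finset.sum_insert ht, Finset.sum_insert ht, ← ih]; rfl
  rw [h3]
  refine Finset.sum_congr rfl fun t _ => ?_
  split_ifs with ht
  · rw [Zt2_zero s z t ht, ← Algebra.smul_def]
    have h4 : ∀ (x : K) (y : Cx K), (x • y).re = x * y.re := fun x y => rfl
    rw [h4]
    simp [mul_comm]
  · rw [hQ' t ht]
    simp

end LX
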