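import Pool.Agent.Lib.LX56.Stp
import Pool.Agent.Lib.LX56.Res2

/-!
The sum of the degrees of the positive types.
-/

namespace LX

/-- The sum of the degrees of the positive types. -/
noncomputable def A2 (k d : ℕ) : ℕ := by
  classical
  exact ∑ t : Sym (Option (Fin k × Bool)) d, if Pos (ch2 t) then dg2 t else 0

theorem A2_zero (k : ℕ) : A2 k 0 = 0 := by
  rw [A2]
  refine Finset.sum_eq_zero fun t _ => ?_
  split_ifs
  · rw [dg2, Nat.zero_sub]
  · rfl

theorem A2_succ (k d : ℕ) : A2 k (d + 1) = A2 k d + (d + 1) * cp k (d + 1) := by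
  classical
  rw [A2, ← Equiv.sum_comp (Equiv.symm (symOptionSuccEquiv (α := Fin k × Bool) (n := d))),
    Fintype.sum_sum_type]
  congr 1
  · rw [A2]
    refine Finset.sum_congr rfl fun t _ => ?_
    have h1 : (symOptionSuccEquiv (α := Fin k × Bool) (n := d)).symm (Sum.inl t) = none ::ₛ t := rfl
    have h2 : (none ::ₛ t : Sym (Option (Fin k × Bool)) (d + 1)).1 = none ::ₘ t.1 := rfl
    have h3 : ch2 (none ::ₛ t : Sym (Option (Fin k × Bool)) (d + 1)) = ch2 t := by
      funext a
      rw [ch2, ch2, h2, Multiset.count_cons_of_ne (by simp), Multiset.count_cons_of_ne (by simp)]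
    have h4 : dg2 (none ::ₛ t : Sym (Option (Fin k × Bool)) (d + 1)) = dg2 t := by
      rw [dg2, dg2, h2, Multiset.count_cons_self]
      omega
    rw [h1, h3, h4]
  · have h0 : ∀ t : Sym (Fin k × Bool) (d + 1),
        (if Pos (ch2 ((symOptionSuccEquiv (α := Fin k × Bool) (n := d)).symm (Sum.inr t))) then
          dg2 ((symOptionSuccEquiv (α := Fin k × Bool) (n := d)).symm (Sum.inr t)) else 0) =
        if Pos (ch t) then d + 1 else 0 := by
      intro t
      have h1 : (symOptionSuccEquiv (α := Fin k × Bool) (n := d)).symm (Sum.inr t) =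
        t.map (Function.Embedding.some : (Fin k × Bool) ↪ Option (Fin k × Bool)) := rfl
      have h2 : (t.map (Function.Embedding.some : (Fin k × Bool) ↪ Option (Fin k × Bool))).1 =
        t.1.map some := rfl
      have h3 : ∀ p, (t.1.map some).count (some p) = t.1.count p := fun p =>
        Multiset.count_map_eq_count' _ _ (Option.some_injective _) p
      have h5 : (t.1.map (some : Fin k × Bool → Option (Fin k × Bool))).count none = 0 := by
        rw [Multiset.count_eq_zero]
        intro hcon
        obtain ⟨x, _, hx⟩ := Multiset.mem_map.1 hcon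
        exact Option.some_ne_none _ hx
      have h4 : ch2 (t.map (Function.Embedding.some :
          (Fin k × Bool) ↪ Option (Fin k × Bool))) = ch t := by
        funext a
        rw [ch2, ch, h2, h3, h3]
      have h6 : dg2 (t.map (Function.Embedding.some :
          (Fin k × Bool) ↪ Option (Fin k × Bool))) = d + 1 := by
        rw [dg2, h2, h5, Nat.sub_zero]
      rw [h1, h4, h6]
    rw [Finset.sum_congr rfl fun t _ => h0 t, ← Finset.sum_filter, Finset.sum_const, smul_eq_mul,
      mul_comm, cp, Fintype.card_subtype]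

theorem cp_le' (k d : ℕ) : 2 * cp k d ≤ (2 * k + d - 1).choose d := by
  classical
  set A : Finset (Sym (Fin k × Bool) d) := Finset.univ.filter fun t => Pos (ch t) with hA
  set B : Finset (Sym (Fin k × Bool) d) := Finset.univ.filter fun t => Pos (-ch t) with hB
  have h1 : cp k d = A.card := by
    rw [cp, Fintype.card_subtype]
  have h2 : A.card = B.card := by
    refine Finset.card_bij (fun t _ => st t) ?_ ?_ ?_
    · intro t ht
      rw [hA, Finset.mem_filter] at ht
      rw [hB, Finset.mem_filter]
      refine ⟨Finset.mem_univ _, ?_⟩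
      have h3 : -ch (st t) = ch t := by
        funext a
        rw [Pi.neg_apply, ch_st, neg_neg]
      rw [h3]
      exact ht.2
    · intro t _ t' _ htt
      have h3 := congrArg st htt
      simpa [st_st] using h3
    · intro t ht
      rw [hB, Finset.mem_filter] at ht
      refine ⟨st t, ?_, st_st t⟩
      rw [hA, Finset.mem_filter]
      refine ⟨Finset.mem_univ _, ?_⟩
      have h3 : ch (st t) = -ch t := funext fun a => ch_st t a
      rw [h3]
      exact ht.2
  have h4 : Fintype.card (Sym (Fin k × Bool) d) = (2 * k + d - 1).choose d := by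
    rw [Sym.card_sym_eq_choose, Fintype.card_prod, Fintype.card_fin, Fintype.card_bool, mul_comm k 2]
  have hAB : Disjoint A B := by
    rw [Finset.disjoint_left]
    intro t ht ht'
    rw [hA, Finset.mem_filter] at ht
    rw [hB, Finset.mem_filter] at ht'
    exact ht.2.not_neg ht'.2
  have h5 : (A ∪ B).card ≤ Fintype.card (Sym (Fin k × Bool) d) := Finset.card_le_univ _
  rw [Finset.card_union_of_disjoint hAB, h4, ← h2, ← h1] at h5
  omega

private theorem ab (a p : ℕ) : (p + 1) * (a + p).choose (p + 1) = a * (a + p).choose p := by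
  have h1 := Nat.choose_succ_right_eq (a + p) p
  rw [Nat.add_sub_cancel] at h1
  linarith

theorem A2_le (k e : ℕ) : 2 * A2 k (2 * (e + 1)) + 2 * k * (k + e + 1).choose e ≤
    2 * k * (2 * k + 2 * e + 2).choose (2 * e + 1) := by
  induction e with
  | zero =>
    have h1 := cp_le' k 1
    have h2 := cp_le 1 k
    have h3 := ab (2 * k) 0
    have h4 := ab (2 * k) 1
    have h5 := ab k 0
    have h6 : A2 k (2 * (0 + 1)) = 1 * cp k 1 + 2 * cp k 2 := by
      rw [show 2 * (0 + 1) = 0 + 1 + 1 from rfl, A2_succ, A2_succ, A2_zero]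
      ring
    rw [h6]
    simp only [mul_one, Nat.choose_one_right, Nat.choose_zero_right,
      add_zero, mul_zero, zero_add, Nat.add_one_sub_one, Nat.reduceAdd] at *
    nlinarith
  | succ e ih =>
    have h1 := cp_le' k (2 * e + 3)
    have h2 := cp_le (e + 2) k
    have h3 := ab (2 * k) (2 * e + 2)
    have h4 := ab (2 * k) (2 * e + 3)
    have h5 := ab k (e + 1)
    have h6 : A2 k (2 * (e + 1 + 1)) = A2 k (2 * (e + 1)) + (2 * e + 3) * cp k (2 * e + 3) +
        (2 * e + 4) * cp k (2 * e + 4) := by
      rw [show 2 * (e + 1 + 1) = 2 * (e + 1) + 1 + 1 from rfl, A2_succ, A2_succ]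
      congr 1
    have e1 : 2 * k + (2 * e + 3) - 1 = 2 * k + (2 * e + 2) := by omega
    have e2 : k + (e + 2) - 1 = k + (e + 1) := by omega
    have e3 : 2 * k + 2 * (e + 2) - 1 = 2 * k + (2 * e + 3) := by omega
    rw [e1] at h1
    rw [e2, e3] at h2
    have e4 : 2 * (e + 2) = 2 * e + 4 := by ring
    rw [e4] at h2
    have p1 : (2 * k + 2 * (e + 1) + 2).choose (2 * (e + 1) + 1) =
        (2 * k + (2 * e + 3)).choose (2 * e + 3) + (2 * k + (2 * e + 2)).choose (2 * e + 2) +
          (2 * k + 2 * e + 2).choose (2 * e + 1) := by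
      have q1 : (2 * k + 2 * (e + 1) + 2).choose (2 * (e + 1) + 1) =
          (2 * k + (2 * e + 3)).choose (2 * e + 2) + (2 * k + (2 * e + 3)).choose (2 * e + 3) := by
        rw [show 2 * k + 2 * (e + 1) + 2 = (2 * k + (2 * e + 3)) + 1 by ring,
          show 2 * (e + 1) + 1 = (2 * e + 2) + 1 by ring, Nat.choose_succ_succ]
      have q2 : (2 * k + (2 * e + 3)).choose (2 * e + 2) =
          (2 * k + 2 * e + 2).choose (2 * e + 1) + (2 * k + (2 * e + 2)).choose (2 * e + 2) := by
        rw [show 2 * k + (2 * e + 3) = (2 * k + 2 * e + 2) + 1 by ring,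
          show 2 * e + 2 = (2 * e + 1) + 1 by ring, Nat.choose_succ_succ,
          show 2 * k + (2 * e + 1 + 1) = 2 * k + 2 * e + 2 by ring]
      rw [q1, q2]
      ring
    have p2 : (k + (e + 1) + 1).choose (e + 1) = (k + e + 1).choose e +
        (k + (e + 1)).choose (e + 1) := by
      rw [show k + (e + 1) + 1 = (k + e + 1) + 1 by ring, Nat.choose_succ_succ,
        show k + (e + 1) = k + e + 1 by ring]
    rw [h6, p1, p2]
    have m1 : (2 * e + 3) * (2 * cp k (2 * e + 3)) ≤
        (2 * e + 3) * (2 * k + (2 * e + 2)).choose (2 * e + 3) := Nat.mul_le_mul_left _ h1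
    have m2 : (2 * e + 4) * (2 * cp k (2 * e + 4) + (k + (e + 1)).choose (e + 2)) ≤
        (2 * e + 4) * (2 * k + (2 * e + 3)).choose (2 * e + 4) := Nat.mul_le_mul_left _ h2
    have h3' : (2 * e + 3) * (2 * k + (2 * e + 2)).choose (2 * e + 3) =
      2 * k * (2 * k + (2 * e + 2)).choose (2 * e + 2) := h3
    have h4' : (2 * e + 4) * (2 * k + (2 * e + 3)).choose (2 * e + 4) =
      2 * k * (2 * k + (2 * e + 3)).choose (2 * e + 3) := h4
    have h5' : (e + 2) * (k + (e + 1)).choose (e + 2) = k * (k + (e + 1)).choose (e + 1) := h5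
    rw [h3'] at m1
    rw [h4'] at m2
    have m3 : (2 * e + 4) * (2 * cp k (2 * e + 4) + (k + (e + 1)).choose (e + 2)) =
        (2 * e + 4) * (2 * cp k (2 * e + 4)) + 2 * (k * (k + (e + 1)).choose (e + 1)) := by
      rw [← h5']
      ring
    rw [m3] at m2
    linarith

end LX
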