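import Pool.Agent.Lib.LX56.Main2

/-!
Explicit bounds for systems of diagonal forms over nonreal fields of transcendence degree one over
real closed fields.
-/

namespace LX

open LW LWR

/-- The diagonal form. -/
noncomputable def dgf {K : Type} [Field K] {m : ℕ} (d : ℕ) (a : Fin m → K) :
    MvPolynomial (Fin m) K := ∑ l, MvPolynomial.C (a l) * MvPolynomial.X l ^ d

theorem dgf_hom {K : Type} [Field K] {m : ℕ} (d : ℕ) (a : Fin m → K) :
    (dgf d a).IsHomogeneous d := by
  refine MvPolynomial.IsHomogeneous.sum _ _ _ fun l _ => ?_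
  have h := (MvPolynomial.isHomogeneous_C (Fin m) (a l)).mul
    (MvPolynomial.isHomogeneous_X_pow (R := K) l d)
  rwa [zero_add] at h

theorem eval_dgf {K : Type} [Field K] {m : ℕ} (d : ℕ) (a x : Fin m → K) :
    MvPolynomial.eval x (dgf d a) = ∑ l, a l * x l ^ d := by
  simp [dgf]

theorem rot {K : Type} [Field K] [CharZero K] {m : ℕ} (w : Fin 1 → Fin m → Cx K)
    (hw : ∀ a, w a ≠ 0) (z : Cx K) (hz : nn z ≠ 0) :
    ∃ u : Cx K, nn u = 1 ∧ pt w (fun _ => u * z) ≠ 0 := by
  by_contra hcon
  simp only [not_exists, not_and, not_not] at hcon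
  have h1 : ∀ (u : Cx K) (l : Fin m), nn u = 1 → 2 * (u * z * w 0 l).re = 0 := by
    intro u l hu
    have h2 := congrFun (hcon u hu) l
    simpa [pt] using h2
  have h5 : (5 : K) ≠ 0 := by norm_num
  apply hw 0
  funext l
  have h3 := h1 ⟨1, 0⟩ l (by simp [nn])
  have h6 := h1 ⟨3 / 5, 4 / 5⟩ l (by
    simp only [nn]
    field_simp
    norm_num)
  set x := z * w 0 l with hx
  simp only [mul_assoc, ← hx] at h3 h6
  simp only [QuadraticAlgebra.re_mul] at h3 h6
  have h7 : x.re = 0 := by
    have : (2 : K) * x.re = 0 := by linear_combination h3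
    exact (mul_eq_zero.1 this).resolve_left two_ne_zero
  have h8 : x.im = 0 := by
    rw [h7] at h6
    have : (8 : K) * x.im = 0 := by
      field_simp at h6
      linear_combination (exp := 1) -h6
    have h8 : (8 : K) ≠ 0 := by norm_num
    exact (mul_eq_zero.1 this).resolve_left h8
  have h9 : x = 0 := by
    ext
    · exact h7
    · exact h8
  have h10 := congrArg (fun y => star z * y) h9
  simp only [hx, mul_zero] at h10
  rw [← mul_assoc, mul_comm (star z), mul_star_eq, ← Algebra.smul_def] at h10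
  have h11 : (nn z)⁻¹ • nn z • w 0 l = 0 := by rw [h10, smul_zero]
  rwa [smul_smul, inv_mul_cancel₀ hz, one_smul] at h11

theorem cp_one (e : ℕ) : cp 1 (2 * e) ≤ e := by
  have h := cp_le e 1
  have h1 : 1 + e - 1 = e := by omega
  have h2 : 2 * 1 + 2 * e - 1 = 2 * e + 1 := by omega
  rw [h1, h2, Nat.choose_self, Nat.choose_succ_self_right] at h
  omega

/-- One block. -/
theorem blk (R K : Type) [Field R] [IsRealClosed R] [Field K] [Algebra R K]
    (h : Growth R K 1) (hN : ∀ b : K, ∃ z : Cx K, nn z = b) (r e S : ℕ)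
    (hS : 2 * r * e ^ 2 < S) (a : Fin S → Fin r → K) :
    ∃ C : Fin r → K, ∀ y : K, ∃ X : Fin S → K, (y ≠ 0 → X ≠ 0) ∧
      ∀ ρ, ∑ l, a l ρ * X l ^ (2 * e) = C ρ * y ^ e := by
  classical
  have hch : CharZero K := charZero_of_injective_algebraMap (algebraMap R K).injective
  obtain ⟨w, c, hw, hz⟩ := restrict R K 1 h r (2 * e) 1 S
    (fun ρ => dgf (2 * e) fun l => a l ρ) (fun ρ => dgf_hom _ _) (by
      refine lt_of_le_of_lt ?_ hS
      calc r * cp 1 (2 * e) * (2 * e) ^ 1 ≤ r * e * (2 * e) ^ 1 :=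
            Nat.mul_le_mul_right _ (Nat.mul_le_mul_left _ (cp_one e))
        _ = 2 * r * e ^ 2 := by ring)
  refine ⟨fun ρ => MvPolynomial.eval (fun _ => 1) (F (c ρ) w), fun y => ?_⟩
  have key : ∀ z : Cx K, ∀ ρ, ∑ l, a l ρ * pt w (fun _ => z) l ^ (2 * e) =
      MvPolynomial.eval (fun _ => 1) (F (c ρ) w) * nn z ^ e := by
    intro z ρ
    have h1 := hz ρ fun _ => z
    rw [eval_dgf] at h1
    rw [h1]
    obtain ⟨c', hc'⟩ := LWR.exists_tensor (F (c ρ) w) (F_hom (c ρ) w)
    rw [hc', hc']
    have h2 : (fun _ : Fin 1 => nn z) = nn z • (fun _ : Fin 1 => (1 : K)) := by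
      funext a
      simp
    rw [h2, ev_smul, mul_comm]
  obtain ⟨z, hz'⟩ := hN y
  by_cases hy : y = 0
  · refine ⟨pt w (fun _ => z), fun h => absurd hy h, fun ρ => ?_⟩
    rw [key, hz']
  · obtain ⟨u, hu, hne⟩ := rot w hw z (by rw [hz']; exact hy)
    refine ⟨pt w (fun _ => u * z), fun _ => hne, fun ρ => ?_⟩
    rw [key, nn_mul, hu, one_mul, hz']

/-- The bound. -/
def Dd (r d : ℕ) : ℕ :=
  if d = 0 then 0 else if d % 2 = 1 then r * d else if d = 2 then r * (r + 1) else
    if 2 < d then Dd r (d / 2) * (2 * r * (d / 2) ^ 2 + 1) else 0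
termination_by d
decreasing_by all_goals omega

theorem Dd_odd (r d : ℕ) (hd : Odd d) : Dd r d = r * d := by
  obtain ⟨e, rfl⟩ := hd
  rw [Dd, if_neg (by omega), if_pos (by omega)]

theorem Dd_two (r : ℕ) : Dd r 2 = r * (r + 1) := by
  rw [Dd, if_neg (by omega), if_neg (by omega), if_pos rfl]

theorem Dd_even (r e : ℕ) (he : 2 ≤ e) : Dd r (2 * e) = Dd r e * (2 * r * e ^ 2 + 1) := by
  rw [Dd, if_neg (by omega), if_neg (by omega), if_neg (by omega), if_pos (by omega),
    Nat.mul_div_cancel_left e (by norm_num)]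

theorem diag (R K : Type) [Field R] [IsRealClosed R] [Field K] [Algebra R K]
    (hK : Algebra.trdeg R K = 1) (hs : ∃ (s : ℕ) (α : Fin s → K), ∑ i, α i ^ 2 = -1) (r : ℕ) :
    ∀ d : ℕ, 1 ≤ d → ∀ m : ℕ, Dd r d < m → ∀ a : Fin m → Fin r → K,
      ∃ x : Fin m → K, x ≠ 0 ∧ ∀ ρ, ∑ l, a l ρ * x l ^ d = 0 := by
  have hch : CharZero K := charZero_of_injective_algebraMap (algebraMap R K).injective
  have h : Growth R K 1 := growth_of_trdeg R K 1 (by simpa using hK)
  intro d
  induction d using Nat.strong_induction_on with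
  | _ d ih =>
    intro hd m hm a
    have base : Bd r d < m → ∃ x : Fin m → K, x ≠ 0 ∧ ∀ ρ, ∑ l, a l ρ * x l ^ d = 0 := by
      intro hB
      obtain ⟨x, hx, h0⟩ := main R K hK hs r d hd m hB (fun ρ => dgf d fun l => a l ρ)
        (fun ρ => dgf_hom _ _)
      exact ⟨x, hx, fun ρ => by rw [← eval_dgf]; exact h0 ρ⟩
    rcases Nat.even_or_odd' d with ⟨e, rfl | rfl⟩
    · rcases Nat.lt_or_ge e 2 with he | he
      · have he1 : e = 1 := by omega
        subst he1
        rw [mul_one, Dd_two] at hm
        exact base (by rw [mul_one, Bd_two]; exact hm)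
      · rw [Dd_even r e he] at hm
        set S := 2 * r * e ^ 2 + 1 with hS
        obtain ⟨emb⟩ : Nonempty (Option (Fin (Dd r e) × Fin S) ↪ Fin m) := by
          rw [Function.Embedding.nonempty_iff_card_le]
          simp only [Fintype.card_option, Fintype.card_prod, Fintype.card_fin]
          exact hm
        choose C X hX hC using fun b : Fin (Dd r e) =>
          blk R K h (norm_univ R K h hs) r e S (Nat.lt_succ_self _)
            fun t => a (emb (some (b, t)))
        obtain ⟨y, hy, h0⟩ := ih e (by omega) (by omega) (Dd r e + 1) (Nat.lt_succ_self _)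
          (Fin.cons (a (emb none)) C)
        obtain ⟨y', s, hy', hsq, h0'⟩ : ∃ (y' : Fin (Dd r e + 1) → K) (s : K), y' ≠ 0 ∧
            s ^ 2 = y' 0 ∧ ∀ ρ, ∑ l, (Fin.cons (a (emb none)) C :
              Fin (Dd r e + 1) → Fin r → K) l ρ * y' l ^ e = 0 := by
          by_cases hy0 : y 0 = 0
          · exact ⟨y, 0, hy, by rw [hy0]; ring, h0⟩
          · refine ⟨y 0 • y, y 0, smul_ne_zero hy0 hy, by rw [Pi.smul_apply, smul_eq_mul, sq],
              fun ρ => ?_⟩
            have h1 := congrArg (fun t => y 0 ^ e * t) (h0 ρ)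
            simp only [mul_zero, Finset.mul_sum] at h1
            rw [← h1]
            refine Finset.sum_congr rfl fun l _ => ?_
            rw [Pi.smul_apply, smul_eq_mul, mul_pow]
            ring
        let val : Option (Fin (Dd r e) × Fin S) → K
          | none => s
          | some p => X p.1 (y' p.1.succ) p.2
        have hval : ∀ o, Function.extend emb val 0 (emb o) = val o := fun o =>
          emb.injective.extend_apply _ _ _
        refine ⟨Function.extend emb val 0, fun hx => ?_, fun ρ => ?_⟩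
        · apply hy'
          have hv0 : ∀ o, val o = 0 := by
            intro o
            rw [← hval, hx]
            rfl
          funext b
          refine Fin.cases ?_ (fun b => ?_) b
          · have h1 : s = 0 := hv0 none
            rw [← hsq, h1]
            simp
          · by_contra hb
            apply hX b _ hb
            funext t
            exact hv0 (some (b, t))
        · have h1 : ∑ l, a l ρ * Function.extend emb val 0 l ^ (2 * e) =
              ∑ o, a (emb o) ρ * val o ^ (2 * e) := by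
            symm
            refine Fintype.sum_of_injective emb emb.injective _ _ (fun l hl => ?_) fun o => ?_
            · rw [Function.extend_apply' _ _ _ (fun ⟨o, ho⟩ => hl ⟨o, ho⟩), Pi.zero_apply,
                zero_pow (by omega), mul_zero]
            · rw [hval]
          rw [h1, Fintype.sum_option, Fintype.sum_prod_type]
          have h2 := h0' ρ
          rw [Fin.sum_univ_succ] at h2
          simp only [Fin.cons_zero, Fin.cons_succ] at h2
          have h3 : a (emb none) ρ * val none ^ (2 * e) = a (emb none) ρ * y' 0 ^ e := by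
            show a (emb none) ρ * s ^ (2 * e) = _
            rw [pow_mul, hsq]
          have h4 : ∀ b, ∑ t, a (emb (some (b, t))) ρ * val (some (b, t)) ^ (2 * e) =
              C b ρ * y' b.succ ^ e := fun b => hC b (y' b.succ) ρ
          rw [h3, Finset.sum_congr rfl fun b _ => h4 b]
          exact h2
    · rw [Dd_odd r _ ⟨e, rfl⟩] at hm
      exact base (by rw [Bd_odd r _ ⟨e, rfl⟩]; exact hm)

/-- The explicit bounds for diagonal forms. -/
theorem explicit_diag : ∃ D : ℕ → ℕ → ℕ, (∀ r d, Odd d → D r d = r * d) ∧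
    (∀ r, D r 2 = r * (r + 1)) ∧
    (∀ r e, 2 ≤ e → D r (2 * e) = D r e * (2 * r * e ^ 2 + 1)) ∧ D 1 4 = 18 ∧
    ∀ (R K : Type) [Field R] [IsRealClosed R] [Field K] [Algebra R K], Algebra.trdeg R K = 1 →
      (∃ (s : ℕ) (α : Fin s → K), ∑ i, α i ^ 2 = -1) →
      ∀ r d m : ℕ, 1 ≤ d → D r d < m → ∀ a : Fin m → Fin r → K,
        ∃ x : Fin m → K, x ≠ 0 ∧ ∀ ρ, ∑ l, a l ρ * x l ^ d = 0 := by
  refine ⟨Dd, Dd_odd, Dd_two, Dd_even, ?_, fun R K _ _ _ _ hK hs r d m hd hm a => ?_⟩
  · have h1 := Dd_even 1 2 le_rfl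
    rw [Dd_two] at h1
    rw [show (4 : ℕ) = 2 * 2 from rfl, h1]
    norm_num
  · exact diag R K hK hs r d hd m hm a

end LX
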