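import Pool.Agent.Lib.LWR.Ci

/-!
The circle theorem for general polynomial systems over real closed fields: complex polynomials in
`v` and `conj v`, every one homogeneous of a nonzero weight for the circle, have a common nontrivial
zero if there are fewer of them than variables.
-/

namespace LX

open LW LWR

/-- A product of powers of coordinates and their conjugates. -/
def mono {ι A : Type} [CommRing A] {D : ℕ} (v : ι → Cx A) (μ : Fin D → ι) (a b : Fin D → ℕ) :
    Cx A := ∏ i, (v (μ i) ^ a i * star (v (μ i)) ^ b i)

theorem cxMap_mono {ι A B : Type} [CommRing A] [CommRing B] (φ : A →+* B) {D : ℕ}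
    (v : ι → Cx A) (μ : Fin D → ι) (a b : Fin D → ℕ) :
    cxMap φ (mono v μ a b) = mono (fun k => cxMap φ (v k)) μ a b := by
  simp only [mono, map_prod, map_mul, map_pow, cxMap_star]

/-- The `j`-th polynomial. -/
def gen {ι J M A : Type} [CommRing A] [Fintype M] {D : ℕ} (P : J → M → Bool)
    (μ : J → M → Fin D → ι) (a b : J → M → Fin D → ℕ) (C : J → M → Cx A) (v : ι → Cx A) (j : J) :
    Cx A := ∑ m, if P j m then C j m * mono v (μ j m) (a j m) (b j m) else 0

theorem cxMap_gen {ι J M A B : Type} [CommRing A] [CommRing B] [Fintype M] (φ : A →+* B) {D : ℕ}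
    (P : J → M → Bool) (μ : J → M → Fin D → ι) (a b : J → M → Fin D → ℕ) (C : J → M → Cx A)
    (v : ι → Cx A) (j : J) :
    cxMap φ (gen P μ a b C v j) =
      gen P μ a b (fun j m => cxMap φ (C j m)) (fun k => cxMap φ (v k)) j := by
  simp only [gen, map_sum]
  refine Finset.sum_congr rfl fun m _ => ?_
  split_ifs
  · rw [map_mul, cxMap_mono]
  · exact map_zero _

/-- The inverse of `phiC`. -/
noncomputable def psiC : Cx ℝ →+* ℂ where
  toFun z := ⟨z.re, z.im⟩
  map_one' := by
    apply Complex.ext <;> simp [QuadraticAlgebra.re_one, QuadraticAlgebra.im_one]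
  map_mul' x y := by
    apply Complex.ext
    · simp
      ring
    · simp
  map_zero' := by apply Complex.ext <;> simp
  map_add' x y := by apply Complex.ext <;> simp

theorem phi_psi (z : Cx ℝ) : phiC (psiC z) = z := by
  ext <;> rfl

theorem psi_phi (z : ℂ) : psiC (phiC z) = z := by
  apply Complex.ext <;> rfl

theorem gen_real {ι J M : Type} [Fintype ι] [Fintype J] [Fintype M] {D : ℕ}
    (hcard : Fintype.card J < Fintype.card ι) (P : J → M → Bool)
    (μ : J → M → Fin D → ι) (a b : J → M → Fin D → ℕ) (w : J → ℤ) (hw : ∀ j, w j ≠ 0)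
    (hab : ∀ j m, P j m = true → ∑ i, ((a j m i : ℤ) - b j m i) = w j) (C : J → M → Cx ℝ) :
    ∃ v : ι → Cx ℝ, v ≠ 0 ∧ ∀ j, gen P μ a b C v j = 0 := by
  classical
  let G : J → (ι → ℂ) → ℂ := fun j v => ∑ m, if P j m then psiC (C j m) *
    ∏ i, (v (μ j m i) ^ a j m i * (starRingEnd ℂ) (v (μ j m i)) ^ b j m i) else 0
  have hGc : ∀ j, Continuous (G j) := by
    intro j
    refine continuous_finsetSum _ fun m _ => ?_
    split_ifs
    · refine continuous_const.mul (continuous_finsetProd _ fun i _ => ?_)
      exact ((continuous_apply _).pow _).mul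
        ((Complex.continuous_conj.comp (continuous_apply _)).pow _)
    · exact continuous_const
  have hG : ∀ j v (u : ℂ), ‖u‖ = 1 → G j (fun k => u * v k) = u ^ w j * G j v := by
    intro j v u hu
    have hu0 : u ≠ 0 := by
      rintro rfl
      simp at hu
    have hcu : (starRingEnd ℂ) u = u⁻¹ := by
      rw [Complex.inv_def, Complex.normSq_eq_norm_sq, hu]
      simp
    simp only [G]
    rw [Finset.mul_sum]
    refine Finset.sum_congr rfl fun m _ => ?_
    by_cases hP : P j m = true
    · rw [if_pos hP, if_pos hP]
      have h1 : ∏ i, ((u * v (μ j m i)) ^ a j m i * (starRingEnd ℂ) (u * v (μ j m i)) ^ b j m i) =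
          (∏ i, u ^ ((a j m i : ℤ) - b j m i)) *
            ∏ i, (v (μ j m i) ^ a j m i * (starRingEnd ℂ) (v (μ j m i)) ^ b j m i) := by
        rw [← Finset.prod_mul_distrib]
        refine Finset.prod_congr rfl fun i _ => ?_
        rw [map_mul, hcu, mul_pow, mul_pow, zpow_sub₀ hu0, zpow_natCast, zpow_natCast, inv_pow]
        field_simp
      have h2 : ∏ i, u ^ ((a j m i : ℤ) - b j m i) = u ^ w j := by
        rw [← hab j m hP]
        generalize (Finset.univ : Finset (Fin D)) = s
        induction s using Finset.induction_on with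
        | empty => simp
        | insert i s hi ih => rw [Finset.prod_insert hi, Finset.sum_insert hi, zpow_add₀ hu0, ih]
      rw [h1, h2]
      ring
    · rw [if_neg hP, if_neg hP, mul_zero]
  obtain ⟨v, hv0, hv⟩ := circle_BU hcard G hGc w hw hG
  refine ⟨fun k => phiC (v k), ?_, fun j => ?_⟩
  · intro h0
    apply hv0
    funext k
    have h1 := congrArg psiC (congrFun h0 k)
    rw [psi_phi] at h1
    rw [h1]
    exact map_zero _
  · have h1 := congrArg phiC (hv j)
    rw [map_zero] at h1
    rw [← h1]
    simp only [gen, G, map_sum]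
    refine Finset.sum_congr rfl fun m _ => ?_
    split_ifs
    · rw [map_mul, phi_psi, mono, map_prod]
      simp only [map_mul, map_pow, phiC_conj]
    · exact (map_zero _).symm

/-- The system as a natural expression. -/
def sysG {ι J M : Type} [Fintype ι] [Fintype M] {D : ℕ} (P : J → M → Bool)
    (μ : J → M → Fin D → ι) (a b : J → M → Fin D → ℕ) (A : Type) [CommRing A]
    (C : (J × M) × Bool → A) (v : Option (ι × Bool) → A) : Option (J × Bool) → A
  | none => (∑ k : ι, (v (some (k, false)) ^ 2 + v (some (k, true)) ^ 2)) * v none - 1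
  | some (j, c) =>
      if c then (gen P μ a b (fun j m => ⟨C ((j, m), false), C ((j, m), true)⟩)
        (fun k => ⟨v (some (k, false)), v (some (k, true))⟩) j).im else
        (gen P μ a b (fun j m => ⟨C ((j, m), false), C ((j, m), true)⟩)
        (fun k => ⟨v (some (k, false)), v (some (k, true))⟩) j).re

theorem gen_rc {ι J M : Type} [Fintype ι] [Fintype J] [Fintype M] {D : ℕ}
    (hcard : Fintype.card J < Fintype.card ι) (P : J → M → Bool)
    (μ : J → M → Fin D → ι) (a b : J → M → Fin D → ℕ) (w : J → ℤ) (hw : ∀ j, w j ≠ 0)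
    (hab : ∀ j m, P j m = true → ∑ i, ((a j m i : ℤ) - b j m i) = w j)
    (R : Type) [Field R] [IsRealClosed R] (C : J → M → Cx R) :
    ∃ v : ι → Cx R, v ≠ 0 ∧ ∀ j, gen P μ a b C v j = 0 := by
  classical
  obtain ⟨v, hv⟩ := RC.transfer (L := (J × M) × Bool)
    (J := Option (J × Bool)) (V := Option (ι × Bool))
    (fun A _ C v j => sysG P μ a b A C v j) (by
      intro A B _ _ φ C v j
      rcases j with _ | ⟨j, c⟩
      · simp only [sysG, map_sub, map_mul, map_sum, map_add, map_pow, map_one]
      · simp only [sysG]
        have h1 := cxMap_gen φ P μ a b (fun j m => (⟨C ((j, m), false), C ((j, m), true)⟩ : Cx A))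
          (fun k => (⟨v (some (k, false)), v (some (k, true))⟩ : Cx A)) j
        have h2 : (fun k => cxMap φ (⟨v (some (k, false)), v (some (k, true))⟩ : Cx A)) =
          fun k => (⟨φ (v (some (k, false))), φ (v (some (k, true)))⟩ : Cx B) := rfl
        have h3 : (fun (j : J) (m : M) => cxMap φ (⟨C ((j, m), false), C ((j, m), true)⟩ : Cx A)) =
          fun j m => (⟨φ (C ((j, m), false)), φ (C ((j, m), true))⟩ : Cx B) := rfl
        rw [h2, h3] at h1
        rw [← h1]
        cases c <;> simp [cxMap_re, cxMap_im]) (by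
      intro C
      obtain ⟨v, hv0, hv⟩ := gen_real hcard P μ a b w hw hab
        (fun j m => (⟨C ((j, m), false), C ((j, m), true)⟩ : Cx ℝ))
      refine ⟨fun j => match j with
        | none => (∑ k : ι, ((v k).re ^ 2 + (v k).im ^ 2))⁻¹
        | some (k, b) => if b then (v k).im else (v k).re, fun j => ?_⟩
      rcases j with _ | ⟨j, c⟩
      · simp only [sysG]
        have h1 : 0 < ∑ k : ι, ((v k).re ^ 2 + (v k).im ^ 2) := by
          obtain ⟨k, hk⟩ := Function.ne_iff.1 hv0
          refine Finset.sum_pos' (fun j _ => by positivity) ⟨k, Finset.mem_univ k, ?_⟩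
          by_contra hcon
          have h2 : (v k).re ^ 2 + (v k).im ^ 2 = 0 := by
            have : 0 ≤ (v k).re ^ 2 + (v k).im ^ 2 := by positivity
            linarith [not_lt.1 hcon]
          apply hk
          have h3 : (v k).re ^ 2 = 0 := by nlinarith [sq_nonneg (v k).re, sq_nonneg (v k).im]
          have h4 : (v k).im ^ 2 = 0 := by nlinarith [sq_nonneg (v k).re, sq_nonneg (v k).im]
          ext
          · simpa using h3
          · simpa using h4
        simp only [Bool.false_eq_true, if_false, if_true]
        rw [mul_inv_cancel₀ h1.ne', sub_self]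
      · simp only [sysG, Bool.false_eq_true, if_false, if_true]
        have h1 := hv j
        have h2 : (fun k => (⟨(v k).re, (v k).im⟩ : Cx ℝ)) = v := rfl
        rw [h2, h1]
        simp) R (fun t => if t.2 then (C t.1.1 t.1.2).im else (C t.1.1 t.1.2).re)
  refine ⟨fun k => ⟨v (some (k, false)), v (some (k, true))⟩, ?_, ?_⟩
  · intro h0
    have h1 := hv none
    simp only [sysG] at h1
    have h2 : ∀ k, v (some (k, false)) = 0 ∧ v (some (k, true)) = 0 := by
      intro k
      have h3 := congrFun h0 k
      exact ⟨congrArg QuadraticAlgebra.re h3, congrArg QuadraticAlgebra.im h3⟩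
    simp [h2] at h1
  · intro j
    have h3 := hv (some (j, false))
    have h4 := hv (some (j, true))
    simp only [sysG, Bool.false_eq_true, if_false, if_true] at h3 h4
    ext
    · simpa using h3
    · simpa using h4

end LX
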