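import Pool.Agent.Lib.LX56.Quad
import Pool.Agent.Lib.LX56.Cnt2

/-!
Explicit bounds for systems of forms over nonreal fields of transcendence degree one over real
closed fields.
-/

namespace LX

open LW LWR

/-- The restriction to `s ^ 2` and the norms. -/
theorem restrict2 (R K : Type) [Field R] [IsRealClosed R] [Field K] [Algebra R K]
    (h : Gr R K 1) (r e k m : ℕ) (f : Fin r → MvPolynomial (Fin m) K)
    (hf : ∀ ρ, (f ρ).IsHomogeneous (2 * e)) (v : Fin m → K) (hcard : r * A2 k (2 * e) < m) :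
    ∃ (w : Fin k → Fin m → Cx K) (c : Fin r → (Fin (2 * e) → Fin m) → K), (∀ a, w a ≠ 0) ∧
      ∀ ρ s z, MvPolynomial.eval (ptv v w s z) (f ρ) =
        MvPolynomial.eval (Fin.cons (s ^ 2) fun a => nn (z a)) (F2 (c ρ) v w) := by
  classical
  choose c hc using fun ρ => LWR.exists_tensor (f ρ) (hf ρ)
  obtain ⟨w, hw, hz⟩ := kvec2 R K h
    (J := Fin r × {t : Sym (Option (Fin k × Bool)) (2 * e) // Pos (ch2 t)}) k (2 * e) m
    (fun j => dg2 j.2.1) (fun j σ => decide (ty2 σ = j.2.1)) (fun j => ch2 j.2.1)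
    (fun j => j.2.2.ne) (fun j a => ch2_le j.2.1 a)
    (fun j σ hj a => by
      have h1 : ty2 σ = j.2.1 := by simpa using hj
      rw [ch2_ty2, h1])
    (fun j σ hj => by
      have h1 : ty2 σ = j.2.1 := by simpa using hj
      rw [dg2_ty2, h1])
    (fun j σ τ => algebraMap K (Cx K) (c j.1 τ * ∏ i, vo v (σ i) (τ i))) (by
      rw [Fintype.sum_prod_type]
      simp only [Finset.sum_const, Finset.card_univ, Fintype.card_fin, smul_eq_mul]
      have h1 : A2 k (2 * e) =
          ∑ t : {t : Sym (Option (Fin k × Bool)) (2 * e) // Pos (ch2 t)}, dg2 t.1 := by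
        rw [A2, ← Finset.sum_filter]
        exact Finset.sum_subtype _ (fun t => by simp) _
      rwa [← h1])
  refine ⟨w, c, hw, fun ρ s z => ?_⟩
  rw [hc]
  refine eval_F2 (c ρ) v w (fun t ht => ?_) s z
  rw [← hz (ρ, ⟨t, ht⟩), Q2]
  refine Finset.sum_congr rfl fun σ _ => ?_
  by_cases h1 : ty2 σ = t
  · simp only [h1, if_true, decide_true, cof2]
  · simp [h1]

theorem ev_smul {K : Type} [Field K] {m d : ℕ} (c : (Fin d → Fin m) → K) (a : K)
    (x : Fin m → K) : ev c (a • x) = a ^ d * ev c x := by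
  simp only [ev, Pi.smul_apply, smul_eq_mul, Finset.prod_mul_distrib, Finset.prod_const,
    Finset.card_univ, Fintype.card_fin, Finset.mul_sum]
  exact Finset.sum_congr rfl fun τ _ => by ring

/-- The step from `g` to `f`. -/
theorem step2 (K : Type) [Field K] [CharZero K] (hN : ∀ b : K, ∃ z : Cx K, nn z = b) {k m e : ℕ}
    {r : ℕ} (v : Fin m → K) (hv : v ≠ 0) (w : Fin k → Fin m → Cx K) (hw : ∀ a, w a ≠ 0)
    (g : Fin r → MvPolynomial (Fin (k + 1)) K) (hgh : ∀ ρ, (g ρ).IsHomogeneous e)
    (hg : ∃ y : Fin (k + 1) → K, y ≠ 0 ∧ ∀ ρ, MvPolynomial.eval y (g ρ) = 0)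
    (f : Fin r → MvPolynomial (Fin m) K) (hfg : ∀ ρ s z, MvPolynomial.eval (ptv v w s z) (f ρ) =
      MvPolynomial.eval (Fin.cons (s ^ 2) fun a => nn (z a)) (g ρ)) :
    ∃ x : Fin m → K, x ≠ 0 ∧ ∀ ρ, MvPolynomial.eval x (f ρ) = 0 := by
  classical
  -- a zero with a square as first coordinate
  obtain ⟨y, s, hy, hs, hyg⟩ : ∃ (y : Fin (k + 1) → K) (s : K), y ≠ 0 ∧ s ^ 2 = y 0 ∧
      ∀ ρ, MvPolynomial.eval y (g ρ) = 0 := by
    obtain ⟨y, hy, hyg⟩ := hg
    by_cases h0 : y 0 = 0
    · exact ⟨y, 0, hy, by rw [h0]; ring, hyg⟩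
    · refine ⟨y 0 • y, y 0, smul_ne_zero h0 hy, by rw [Pi.smul_apply, smul_eq_mul, sq],
        fun ρ => ?_⟩
      obtain ⟨c, hc⟩ := LWR.exists_tensor (g ρ) (hgh ρ)
      have h1 := hyg ρ
      rw [hc] at h1 ⊢
      rw [ev_smul, h1, mul_zero]
  choose N hN using hN
  let z : Fin k → Cx K := fun a => if y a.succ = 0 then 0 else N (y a.succ)
  have hz : ∀ a, nn (z a) = y a.succ := by
    intro a
    simp only [z]
    split_ifs with h0
    · rw [h0]
      simp [nn]
    · exact hN _
  by_cases hall : ∀ a : Fin k, y a.succ = 0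
  · have hs0 : s ≠ 0 := by
      rintro rfl
      apply hy
      funext b
      refine Fin.cases ?_ (fun a => ?_) b
      · rw [← hs]
        simp
      · exact hall a
    refine ⟨ptv v w s z, fun h0 => hv ?_, fun ρ => ?_⟩
    · funext l
      have h1 := congrFun h0 l
      have h2 : ∀ a, z a = 0 := fun a => by simp only [z, if_pos (hall a)]
      simp only [ptv, pt, h2, zero_mul, QuadraticAlgebra.re_zero, mul_zero, Finset.sum_const_zero,
        add_zero, Pi.zero_apply, mul_eq_zero] at h1
      exact h1.resolve_left hs0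
    · rw [hfg, ← hyg ρ]
      congr 2
      funext b
      refine Fin.cases ?_ (fun a => ?_) b
      · exact hs
      · exact hz a
  · simp only [not_forall] at hall
    obtain ⟨a, ha⟩ := hall
    have key : ∀ u : Cx K, nn u = 1 →
        ∀ ρ, MvPolynomial.eval (ptv v w s (Function.update z a (u * z a))) (f ρ) = 0 := by
      intro u hu ρ
      have h0 : (Fin.cons (s ^ 2) (fun b => nn (Function.update z a (u * z a) b)) :
          Fin (k + 1) → K) = y := by
        funext b
        refine Fin.cases hs (fun b => ?_) b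
        rw [Fin.cons_succ]
        by_cases hb : b = a
        · subst hb
          simp only [Function.update_self]
          rw [nn_mul, hu, one_mul, hz]
        · rw [Function.update_of_ne hb, hz]
      rw [hfg, h0, hyg]
    by_contra hcon
    rw [not_exists] at hcon
    have h0 : ∀ u : Cx K, nn u = 1 → ptv v w s (Function.update z a (u * z a)) = 0 := by
      intro u hu
      by_contra h
      exact hcon _ ⟨h, key u hu⟩
    have h1 : ∀ (u : Cx K) (l : Fin m), nn u = 1 → 2 * (u * z a * w a l).re +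
        (s * v l + ∑ b ∈ Finset.univ.erase a, 2 * (z b * w b l).re) = 0 := by
      intro u l hu
      have h2 := congrFun (h0 u hu) l
      rw [ptv, pt, ← Finset.add_sum_erase _ _ (Finset.mem_univ a)] at h2
      simp only [Function.update_self, Pi.zero_apply] at h2
      refine Eq.trans ?_ h2
      have h3 : ∑ b ∈ Finset.univ.erase a, 2 * (z b * w b l).re =
          ∑ b ∈ Finset.univ.erase a, 2 * (Function.update z a (u * z a) b * w b l).re := by
        refine Finset.sum_congr rfl fun b hb => ?_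
        rw [Function.update_of_ne (Finset.ne_of_mem_erase hb)]
      rw [h3]
      ring
    have h5 : (5 : K) ≠ 0 := by norm_num
    have h2 : ∀ l, z a * w a l = 0 := by
      intro l
      have h3 := h1 ⟨1, 0⟩ l (by simp [nn])
      have h4 := h1 ⟨-1, 0⟩ l (by simp [nn])
      have h6 := h1 ⟨3 / 5, 4 / 5⟩ l (by
        simp only [nn]
        field_simp
        norm_num)
      set x := z a * w a l with hx
      generalize (s * v l + ∑ b ∈ Finset.univ.erase a, 2 * (z b * w b l).re) = t at h3 h4 h6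
      simp only [mul_assoc, ← hx] at h3 h4 h6
      simp only [QuadraticAlgebra.re_mul] at h3 h4 h6
      have h7 : x.re = 0 := by
        have : (4 : K) * x.re = 0 := by linear_combination h3 - h4
        have h4 : (4 : K) ≠ 0 := by norm_num
        exact (mul_eq_zero.1 this).resolve_left h4
      have h8 : x.im = 0 := by
        rw [h7] at h3 h6
        have : (8 : K) * x.im = 0 := by
          field_simp at h6
          linear_combination (exp := 1) 5 * h3 - h6
        have h8 : (8 : K) ≠ 0 := by norm_num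
        exact (mul_eq_zero.1 this).resolve_left h8
      ext
      · exact h7
      · exact h8
    apply hw a
    funext l
    have h3 := congrArg (fun y => star (z a) * y) (h2 l)
    simp only [mul_zero] at h3
    rw [← mul_assoc, mul_comm (star (z a)), mul_star_eq, ← Algebra.smul_def, hz a] at h3
    have h6 : (y a.succ)⁻¹ • y a.succ • w a l = 0 := by rw [h3, smul_zero]
    rwa [smul_smul, inv_mul_cancel₀ ha, one_smul] at h6

/-- The bound. -/
def Bd (r d : ℕ) : ℕ :=
  if d = 0 then 0 else if d % 2 = 1 then r * d else if d = 2 then r * (r + 1) else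
    if 2 < d then
      r * (Bd r (d / 2) * ((2 * Bd r (d / 2) + d).choose (d - 1) -
        (Bd r (d / 2) + d / 2).choose (d / 2 - 1)))
    else 0
termination_by d
decreasing_by all_goals omega

theorem Bd_odd (r d : ℕ) (hd : Odd d) : Bd r d = r * d := by
  obtain ⟨e, rfl⟩ := hd
  rw [Bd, if_neg (by omega), if_pos (by omega)]

theorem Bd_two (r : ℕ) : Bd r 2 = r * (r + 1) := by
  rw [Bd, if_neg (by omega), if_neg (by omega), if_pos rfl]

theorem Bd_even (r e : ℕ) (he : 2 ≤ e) : Bd r (2 * e) =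
    r * (Bd r e * ((2 * Bd r e + 2 * e).choose (2 * e - 1) - (Bd r e + e).choose (e - 1))) := by
  rw [Bd, if_neg (by omega), if_neg (by omega), if_neg (by omega), if_pos (by omega),
    Nat.mul_div_cancel_left e (by norm_num)]

theorem main (R K : Type) [Field R] [IsRealClosed R] [Field K] [Algebra R K]
    (hK : Algebra.trdeg R K = 1) (hs : ∃ (s : ℕ) (α : Fin s → K), ∑ i, α i ^ 2 = -1) (r : ℕ) :
    ∀ d : ℕ, 1 ≤ d → ∀ m : ℕ, Bd r d < m → ∀ f : Fin r → MvPolynomial (Fin m) K,
      (∀ ρ, (f ρ).IsHomogeneous d) →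
        ∃ x : Fin m → K, x ≠ 0 ∧ ∀ ρ, MvPolynomial.eval x (f ρ) = 0 := by
  have hch : CharZero K := charZero_of_injective_algebraMap (algebraMap R K).injective
  have h : Growth R K 1 := growth_of_trdeg R K 1 (by simpa using hK)
  have h' : Gr R K 1 := gr_of_trdeg R K 1 (by simpa using hK)
  intro d
  induction d using Nat.strong_induction_on with
  | _ d ih =>
    intro hd m hm f hf
    rcases Nat.even_or_odd' d with ⟨e, rfl | rfl⟩
    · rcases Nat.lt_or_ge e 2 with he | he
      · have he1 : e = 1 := by omega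
        subst he1
        rw [mul_one, Bd_two] at hm
        choose c hc using fun ρ => LWR.exists_tensor (f ρ) (hf ρ)
        obtain ⟨x, hx, h0⟩ := quad_sys R K h hs r m hm c
        exact ⟨x, hx, fun ρ => by rw [hc ρ x]; exact h0 ρ⟩
      · rw [Bd_even r e he] at hm
        obtain ⟨e', rfl⟩ : ∃ e', e = e' + 1 := ⟨e - 1, by omega⟩
        have h1 := A2_le (Bd r (e' + 1)) e'
        have h2 : A2 (Bd r (e' + 1)) (2 * (e' + 1)) ≤ Bd r (e' + 1) *
            ((2 * Bd r (e' + 1) + 2 * (e' + 1)).choose (2 * (e' + 1) - 1) -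
              (Bd r (e' + 1) + (e' + 1)).choose (e' + 1 - 1)) := by
          have e1 : 2 * (e' + 1) - 1 = 2 * e' + 1 := by omega
          rw [e1, Nat.add_sub_cancel, Nat.mul_sub]
          have e2 : 2 * Bd r (e' + 1) + 2 * (e' + 1) = 2 * Bd r (e' + 1) + 2 * e' + 2 := by ring
          have e3 : Bd r (e' + 1) + (e' + 1) = Bd r (e' + 1) + e' + 1 := by ring
          rw [e2, e3]
          generalize Bd r (e' + 1) = B at *
          refine Nat.le_sub_of_add_le ?_
          have h3 : 2 * (A2 B (2 * (e' + 1)) + B * (B + e' + 1).choose e') ≤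
              2 * (B * (2 * B + 2 * e' + 2).choose (2 * e' + 1)) := by linarith
          omega
        have hm0 : 0 < m := by omega
        have hv : (Pi.single ⟨0, hm0⟩ 1 : Fin m → K) ≠ 0 := by
          intro h0
          have := congrFun h0 ⟨0, hm0⟩
          simp at this
        obtain ⟨w, c, hw, hz⟩ := restrict2 R K h' r (e' + 1) (Bd r (e' + 1)) m f hf
          (Pi.single ⟨0, hm0⟩ 1) (lt_of_le_of_lt (Nat.mul_le_mul_left _ h2) hm)
        exact step2 K (norm_univ R K h hs) _ hv w hw
          (fun ρ => F2 (c ρ) (Pi.single ⟨0, hm0⟩ 1) w) (fun ρ => F2_hom _ _ _)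
          (ih (e' + 1) (by omega) (by omega) _ (Nat.lt_succ_self _) _ fun ρ => F2_hom _ _ _) f hz
    · rw [Bd_odd r _ ⟨e, rfl⟩] at hm
      choose c hc using fun ρ => LWR.exists_tensor (f ρ) (hf ρ)
      obtain ⟨x, hx, h0⟩ := odd_iso R K 1 h r (2 * e + 1) m ⟨e, rfl⟩ (by simpa using hm) c
      exact ⟨x, hx, fun ρ => by rw [hc ρ x]; exact h0 ρ⟩

/-- The explicit bounds. -/
theorem explicit : ∃ B : ℕ → ℕ → ℕ, (∀ r d, Odd d → B r d = r * d) ∧
    (∀ r, B r 2 = r * (r + 1)) ∧
    (∀ r e, 2 ≤ e → B r (2 * e) =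
      r * (B r e * ((2 * B r e + 2 * e).choose (2 * e - 1) - (B r e + e).choose (e - 1)))) ∧
    B 1 4 = 104 ∧
    ∀ (R K : Type) [Field R] [IsRealClosed R] [Field K] [Algebra R K], Algebra.trdeg R K = 1 →
      (∃ (s : ℕ) (α : Fin s → K), ∑ i, α i ^ 2 = -1) →
      ∀ r d m : ℕ, 1 ≤ d → B r d < m → ∀ f : Fin r → MvPolynomial (Fin m) K,
        (∀ ρ, (f ρ).IsHomogeneous d) →
          ∃ x : Fin m → K, x ≠ 0 ∧ ∀ ρ, MvPolynomial.eval x (f ρ) = 0 := by
  refine ⟨Bd, Bd_odd, Bd_two, Bd_even, ?_, fun R K _ _ _ _ hK hs r d m hd hm f hf => ?_⟩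
  · have h1 := Bd_even 1 2 le_rfl
    rw [Bd_two] at h1
    rw [show (4 : ℕ) = 2 * 2 from rfl, h1]
    decide
  · exact main R K hK hs r d hd m hm f hf

end LX
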