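import Pool.Agent.Lib.LX56.Ter
import Pool.Agent.Lib.LW.ChE

/-!
The theorem of Borsuk and Ulam for odd maps (from the Tucker type lemma for the prime 2), its
transfer to real closed fields for polynomial systems of odd degree, and forms of odd degree `d` in
more than `d ^ n` variables.
-/

namespace LX

open LW LWR

private theorem pow_neg_one (n : ℕ) : ((-1 : ℝ) ^ n) * (-1) ^ n = 1 := by
  rw [← mul_pow]
  norm_num

theorem bu_odd {M : ℕ} {ι : Type} [Fintype ι] (h : M < Fintype.card ι)
    (G : Fin M → (ι → ℝ) → ℝ) (hc : ∀ j, Continuous (G j)) (hG : ∀ j v, G j (-v) = -G j v) :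
    ∃ v, v ≠ 0 ∧ ∀ j, G j v = 0 := by
  classical
  rcases Nat.eq_zero_or_pos M with hM | hM
  · subst hM
    have : Nonempty ι := Fintype.card_pos_iff.1 h
    exact ⟨1, one_ne_zero, fun j => j.elim0⟩
  by_contra hcon
  push Not at hcon
  have hne : Nonempty (Fin M) := ⟨⟨0, hM⟩⟩
  obtain ⟨e⟩ : Nonempty (Fin (M + 1) ↪ ι) := by
    rw [Function.Embedding.nonempty_iff_card_le]
    simp
    omega
  let T : (ι → ℝ) →ₗ[ℝ] (ι → ℝ) := -LinearMap.id
  have hTa : ∀ v, T v = -v := fun v => rfl
  have hTi : ∀ (n : ℕ) (v : ι → ℝ) (k : ι), T^[n] v k = (-1) ^ n * v k := by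
    intro n
    induction n with
    | zero => intro v k; simp
    | succ n ih =>
      intro v k
      rw [Function.iterate_succ_apply', hTa, Pi.neg_apply, ih, pow_succ]
      ring
  let pt : Fin (M + 1) → ι → ℝ := fun j => Pi.single (e j) 1
  let Q : Set (ι → ℝ) := ⋃ g : Fin (M + 1) → ZMod 2,
    convexHull ℝ (Set.range fun j => T^[(g j).val] (pt j))
  have hQc : IsCompact Q :=
    isCompact_iUnion fun g => Set.Finite.isCompact_convexHull (𝕜 := ℝ) (Set.finite_range _)
  have hQ0 : ∀ x ∈ Q, x ≠ 0 := by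
    intro x hx hx0
    rw [Set.mem_iUnion] at hx
    obtain ⟨g, hg⟩ := hx
    let Φ : (ι → ℝ) →ₗ[ℝ] ℝ :=
      { toFun := fun x => ∑ j, (x (e j) * (-1) ^ (g j).val)
        map_add' := fun x y => by
          rw [← Finset.sum_add_distrib]
          refine Finset.sum_congr rfl fun j _ => ?_
          rw [Pi.add_apply, add_mul]
        map_smul' := fun r x => by
          rw [RingHom.id_apply, smul_eq_mul, Finset.mul_sum]
          refine Finset.sum_congr rfl fun j _ => ?_
          rw [Pi.smul_apply, smul_mul_assoc, smul_eq_mul] }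
    have hΦ : ∀ x, Φ x = ∑ j, (x (e j) * (-1) ^ (g j).val) := fun _ => rfl
    have hsub : convexHull ℝ (Set.range fun j => T^[(g j).val] (pt j)) ⊆ {x | 0 < Φ x} := by
      apply convexHull_min
      · rintro _ ⟨i, rfl⟩
        simp only [Set.mem_ofPred_eq]
        rw [hΦ, Finset.sum_eq_single i]
        · rw [hTi]
          simp only [pt, Pi.single_eq_same, mul_one]
          rw [pow_neg_one]
          exact one_pos
        · intro j _ hj
          rw [hTi]
          have h1 : e j ≠ e i := fun h => hj (e.injective h)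
          simp [pt, h1]
        · intro h
          exact absurd (Finset.mem_univ _) h
      · exact convex_halfSpace_gt Φ.isLinear 0
    have := hsub hg
    rw [hx0] at this
    simp at this
  have hF : Continuous fun x : ι → ℝ => fun j => G j x := continuous_pi hc
  obtain ⟨δ, hδ, hδ'⟩ : ∃ δ : ℝ, 0 < δ ∧ ∀ x ∈ Q, δ ≤ ‖fun j => G j x‖ := by
    rcases Q.eq_empty_or_nonempty with hQe | hQe
    · exact ⟨1, one_pos, fun x hx => by rw [hQe] at hx; exact hx.elim⟩
    · obtain ⟨x, hx, hx'⟩ := hQc.exists_isMinOn hQe (hF.norm.continuousOn)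
      refine ⟨‖fun j => G j x‖, ?_, fun y hy => hx' hy⟩
      rw [norm_pos_iff]
      intro h0
      obtain ⟨j, hj⟩ := hcon x (hQ0 x hx)
      exact hj (congrFun h0 j)
  have hmax : ∀ a : Fin M → ℝ, ∃ i, ∀ j, a j ≤ a i := fun a => Finite.exists_max a
  choose L hL using hmax
  let l : (ι → ℝ) → Fin M := fun x => L fun j => |G j x|
  have hl : ∀ x ∈ Q, δ ≤ |G (l x) x| := by
    intro x hx
    refine (hδ' x hx).trans ?_
    rw [pi_norm_le_iff_of_nonneg (abs_nonneg _)]
    exact fun j => hL (fun j => |G j x|) j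
  have hu := hQc.uniformContinuousOn_of_continuous hF.continuousOn
  rw [Metric.uniformContinuousOn_iff] at hu
  obtain ⟨ε, hε, hε'⟩ := hu δ hδ
  refine tucker M 2 T ?_ pt Q ?_
    (fun x => (if 0 < G (l x) x then 0 else 1, l x)) ?_ ε hε ?_
  · intro x
    funext k
    rw [hTi]
    norm_num
  · intro g
    exact Set.subset_iUnion (fun g : Fin (M + 1) → ZMod 2 =>
      convexHull ℝ (Set.range fun j => T^[(g j).val] (pt j))) g
  · intro x hx
    have hTx : ∀ j, G j (T x) = -G j x := fun j => by rw [hTa, hG]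
    have hlT : l (T x) = l x := by
      simp only [l]
      congr 1
      funext j
      rw [hTx, abs_neg]
    have hne : G (l x) x ≠ 0 := by
      intro h0
      have := hl x hx
      rw [h0, abs_zero] at this
      linarith
    simp only [hlT, hTx]
    refine Prod.ext ?_ rfl
    simp only
    rcases lt_or_gt_of_ne hne with h1 | h1
    · rw [if_pos (by linarith), if_neg (by linarith)]
      decide
    · rw [if_neg (by linarith), if_pos h1]
      decide
  · intro x hx y hy hxy h2
    simp only at h2 ⊢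
    have h6 : dist (G (l x) x) (G (l x) y) < δ :=
      lt_of_le_of_lt (dist_le_pi_dist (fun j => G j x) (fun j => G j y) (l x)) (hε' x hx y hy hxy)
    rw [Real.dist_eq] at h6
    have h7 := hl x hx
    have h8 := hl y hy
    rw [← h2] at h8 ⊢
    rw [abs_lt] at h6
    by_cases h3 : 0 < G (l x) x
    · rw [abs_of_pos h3] at h7
      rw [if_pos h3, if_pos (by linarith)]
    · rw [abs_of_nonpos (not_lt.1 h3)] at h7
      rw [if_neg h3, if_neg (by linarith)]

theorem odd_real {ι J : Type} [Fintype ι] [Fintype J] {D : ℕ} (hD : Odd D)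
    (hcard : Fintype.card J < Fintype.card ι) (C : J → (Fin D → ι) → ℝ) :
    ∃ v : ι → ℝ, v ≠ 0 ∧ ∀ j, ev (C j) v = 0 := by
  classical
  obtain ⟨v, hv, hz⟩ := bu_odd hcard (fun j v => ev (C ((Fintype.equivFin J).symm j)) v)
    (fun j => by
      simp only [ev]
      exact continuous_finsetSum _ fun μ _ => continuous_const.mul
        (continuous_finsetProd _ fun i _ => continuous_apply _))
    (fun j v => by
      simp only [ev, Pi.neg_apply]
      rw [← Finset.sum_neg_distrib]
      refine Finset.sum_congr rfl fun μ _ => ?_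
      have h1 : ∏ i, -v (μ i) = -∏ i, v (μ i) := by
        rw [Finset.prod_neg, Finset.card_univ, Fintype.card_fin, hD.neg_one_pow]
        ring
      rw [h1]
      ring)
  refine ⟨v, hv, fun j => ?_⟩
  have h1 := hz (Fintype.equivFin J j)
  simpa using h1

/-- The system. -/
def sysO {ι J : Type} [Fintype ι] {D : ℕ} (A : Type) [CommRing A]
    (C : J × (Fin D → ι) → A) (v : Option ι → A) : Option J → A
  | none => (∑ k : ι, v (some k) ^ 2) * v none - 1
  | some j => ev (fun μ => C (j, μ)) fun k => v (some k)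

theorem odd_rc {ι J : Type} [Fintype ι] [Fintype J] {D : ℕ} (hD : Odd D)
    (hcard : Fintype.card J < Fintype.card ι) (R : Type) [Field R] [IsRealClosed R]
    (C : J → (Fin D → ι) → R) : ∃ v : ι → R, v ≠ 0 ∧ ∀ j, ev (C j) v = 0 := by
  classical
  obtain ⟨v, hv⟩ := RC.transfer (L := J × (Fin D → ι)) (J := Option J) (V := Option ι)
    (fun A _ C v j => sysO A C v j) (by
      intro A B _ _ φ C v j
      rcases j with _ | j
      · simp only [sysO, map_sub, map_mul, map_sum, map_pow, map_one]
      · simp only [sysO, ev, map_sum, map_mul, map_prod]) (by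
      intro C
      obtain ⟨v, hv0, hv⟩ := odd_real hD hcard (fun j μ => C (j, μ))
      refine ⟨fun j => match j with
        | none => (∑ k : ι, v k ^ 2)⁻¹
        | some k => v k, fun j => ?_⟩
      rcases j with _ | j
      · simp only [sysO]
        have h1 : 0 < ∑ k : ι, v k ^ 2 := by
          obtain ⟨k, hk⟩ := Function.ne_iff.1 hv0
          exact Finset.sum_pos' (fun j _ => by positivity) ⟨k, Finset.mem_univ k, by
            have : v k ≠ 0 := hk
            positivity⟩
        rw [mul_inv_cancel₀ h1.ne', sub_self]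
      · simp only [sysO]
        exact hv j) R (fun t => C t.1 t.2)
  refine ⟨fun k => v (some k), ?_, ?_⟩
  · intro h0
    have h1 := hv none
    simp only [sysO] at h1
    have h2 : ∀ k, v (some k) = 0 := fun k => congrFun h0 k
    simp [h2] at h1
  · intro j
    exact hv (some j)

/-- Systems of forms of odd degree (Lang). -/
theorem odd_iso (R K : Type) [Field R] [IsRealClosed R] [Field K] [Algebra R K] (n : ℕ)
    (h : Growth R K n) (r d m : ℕ) (hd : Odd d) (hm : r * d ^ n < m)
    (c : Fin r → (Fin d → Fin m) → K) : ∃ x : Fin m → K, x ≠ 0 ∧ ∀ ρ, ev (c ρ) x = 0 := by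
  classical
  obtain ⟨E, c₀, hE, hM⟩ := h (Finset.univ.image fun p : Fin r × (Fin d → Fin m) => c p.1 p.2) d
  obtain ⟨M, hM0, hlt⟩ := exists_M r d n m c₀ hm
  obtain ⟨e, e', hli, hsp⟩ := hM M
  let I := Fin E × (Fin n → Fin M)
  let I' := Fin E × (Fin n → Fin (c₀ + d * M))
  have hC : ∀ (ρ : Fin r) (τ : Fin d → Fin m) (κ : Fin d → I), ∃ C : I' → R,
      ∑ q, C q • e' q = c ρ τ * ∏ i, e (κ i) := fun ρ τ κ =>
    (Submodule.mem_span_range_iff_exists_fun R).1
      (hsp (c ρ τ) (Finset.mem_image.2 ⟨(ρ, τ), Finset.mem_univ _, rfl⟩) κ)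
  choose C hC using hC
  have hcard' : Fintype.card (Fin r × I') < Fintype.card (Fin m × I) := by
    simp only [I, I', Fintype.card_prod, Fintype.card_fin, Fintype.card_fun]
    calc r * (E * (c₀ + d * M) ^ n) = E * (r * (c₀ + d * M) ^ n) := by ring
      _ < E * (m * M ^ n) := Nat.mul_lt_mul_of_pos_left hlt hE
      _ = m * (E * M ^ n) := by ring
  obtain ⟨v, hv0, hv⟩ := odd_rc (ι := Fin m × I) (J := Fin r × I') hd hcard' R
    (fun q μ => C q.1 (fun i => (μ i).1) (fun i => (μ i).2) q.2)
  refine ⟨fun l => ∑ κ : I, v (l, κ) • e κ, ?_, fun ρ => ?_⟩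
  · intro h0
    obtain ⟨⟨l, κ⟩, hlκ⟩ := Function.ne_iff.1 hv0
    exact hlκ (Fintype.linearIndependent_iff.1 hli (fun k => v (l, k)) (congrFun h0 l) κ)
  · have h1 : ∀ τ : Fin d → Fin m, c ρ τ * ∏ i, ∑ κ : I, v (τ i, κ) • e κ =
        ∑ q : I', (∑ κ : Fin d → I, C ρ τ κ q * ∏ i, v (τ i, κ i)) • e' q := by
      intro τ
      have h2 := Finset.prod_univ_sum (fun _ : Fin d => (Finset.univ : Finset I))
        (fun i κ => v (τ i, κ) • e κ)
      rw [Fintype.piFinset_univ] at h2
      rw [h2, Finset.mul_sum]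
      simp only [Finset.sum_smul]
      rw [Finset.sum_comm]
      refine Finset.sum_congr rfl fun κ _ => ?_
      have h3 : ∏ i, v (τ i, κ i) • e (κ i) = (∏ i, v (τ i, κ i)) • ∏ i, e (κ i) := by
        simp only [Algebra.smul_def, Finset.prod_mul_distrib, map_prod]
      rw [h3, mul_smul_comm, ← hC ρ τ κ, Finset.smul_sum]
      refine Finset.sum_congr rfl fun q _ => ?_
      rw [smul_smul, mul_comm]
    rw [ev, Finset.sum_congr rfl fun τ _ => h1 τ, Finset.sum_comm]
    refine Finset.sum_eq_zero fun q _ => ?_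
    rw [← Finset.sum_smul]
    have h2 := hv (ρ, q)
    rw [ev, ← Equiv.sum_comp (Equiv.arrowProdEquivProdArrow (Fin d) (fun _ => Fin m)
      (fun _ => I)).symm, Fintype.sum_prod_type] at h2
    have h3 : ∑ τ : Fin d → Fin m, ∑ κ : Fin d → I, C ρ τ κ q * ∏ i, v (τ i, κ i) = 0 := h2
    rw [h3, zero_smul]

end LX
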