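import Pool.Agent.Lib.LX56.Odd

/-!
Systems of quadratic forms (Leep): if every quadratic form in more than `2` variables is isotropic,
then every system of `r` quadratic forms in more than `r (r + 1)` variables is isotropic.
-/

namespace LX

open LW LWR

/-- Systems of `r` quadratic forms in more than `N` variables are isotropic. -/
def QI (K : Type) [Field K] (r N : ℕ) : Prop :=
  ∀ (V : Type) [AddCommGroup V] [Module K V] [FiniteDimensional K V], N < Module.finrank K V →
    ∀ q : Fin r → QuadraticForm K V, ∃ x : V, x ≠ 0 ∧ ∀ ρ, q ρ x = 0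

theorem tot {K : Type} [Field K] {r N : ℕ} (h : QI K r N) (V : Type) [AddCommGroup V] [Module K V]
    [FiniteDimensional K V] (q : Fin r → QuadraticForm K V) :
    ∀ l : ℕ, N + (r + 1) * l < Module.finrank K V →
      ∃ U : Submodule K V, Module.finrank K U = l + 1 ∧ ∀ u ∈ U, ∀ ρ, q ρ u = 0 := by
  intro l
  induction l with
  | zero =>
    intro hl
    obtain ⟨x, hx, hq⟩ := h V (by simpa using hl) q
    refine ⟨K ∙ x, by rw [zero_add]; exact finrank_span_singleton hx, fun u hu ρ => ?_⟩
    obtain ⟨a, rfl⟩ := Submodule.mem_span_singleton.1 hu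
    rw [QuadraticMap.map_smul, hq, smul_zero]
  | succ l ih =>
    intro hl
    obtain ⟨U, hU, hUq⟩ := ih (by nlinarith)
    let Φ : V →ₗ[K] (Fin r → Module.Dual K U) := LinearMap.pi fun ρ =>
      ((QuadraticMap.polarBilin (q ρ)).compl₂ U.subtype)
    have hΦ : ∀ x, Φ x = 0 → ∀ ρ, ∀ u ∈ U, QuadraticMap.polar (q ρ) x u = 0 := by
      intro x hx ρ u hu
      exact congrArg (fun φ : Module.Dual K U => φ ⟨u, hu⟩) (congrFun hx ρ)
    set W := LinearMap.ker Φ with hW
    have hWdim : Module.finrank K V ≤ Module.finrank K W + r * (l + 1) := by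
      have h1 := LinearMap.finrank_range_add_finrank_ker Φ
      rw [← hW] at h1
      have h2 : Module.finrank K (LinearMap.range Φ) ≤ r * (l + 1) := by
        refine (Submodule.finrank_le _).trans ?_
        rw [Module.finrank_pi_fintype, Finset.sum_const, Finset.card_univ, Fintype.card_fin,
          Subspace.dual_finrank_eq, hU, smul_eq_mul]
      omega
    obtain ⟨C, hC⟩ := Submodule.exists_isCompl (U.comap W.subtype)
    have hCdim : Module.finrank K W ≤ Module.finrank K C + (l + 1) := by
      have h1 := Submodule.finrank_add_eq_of_isCompl hC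
      have h2 : Module.finrank K (U.comap W.subtype) ≤ l + 1 := by
        rw [← hU]
        refine LinearMap.finrank_le_finrank_of_injective
          (f := (W.subtype.comp (U.comap W.subtype).subtype).codRestrict U fun x => x.2) ?_
        intro x y hxy
        have h3 := congrArg Subtype.val hxy
        exact Subtype.ext (Subtype.ext h3)
      omega
    obtain ⟨x, hx, hq⟩ := h C (by nlinarith) fun ρ =>
      (q ρ).comp (W.subtype.comp C.subtype)
    set y : V := ((x : W) : V) with hy
    have hyq : ∀ ρ, q ρ y = 0 := hq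
    have hyU : y ∉ U := by
      intro hyU
      apply hx
      have h1 : (x : W) ∈ U.comap W.subtype := hyU
      have h2 := Submodule.disjoint_def.1 hC.disjoint _ h1 x.2
      exact Subtype.ext h2
    have hyW : Φ y = 0 := (x : W).2
    refine ⟨U ⊔ K ∙ y, ?_, ?_⟩
    · rw [Submodule.finrank_sup_span_singleton hyU, hU]
    · intro v hv ρ
      obtain ⟨u, hu, s, hs, rfl⟩ := Submodule.mem_sup.1 hv
      obtain ⟨a, rfl⟩ := Submodule.mem_span_singleton.1 hs
      rw [QuadraticMap.map_add (q ρ) u (a • y), hUq u hu, QuadraticMap.map_smul, hyq, smul_zero,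
        QuadraticMap.polar_smul_right, QuadraticMap.polar_comm, hΦ y hyW ρ u hu, smul_zero,
        add_zero, add_zero]

theorem QI_succ {K : Type} [Field K] {r N M : ℕ} (h1 : QI K 1 M) (h : QI K r N) :
    QI K (r + 1) (N + (r + 1) * M) := by
  intro V _ _ _ hV q
  obtain ⟨U, hU, hq⟩ := tot h V (fun ρ => q ρ.castSucc) M hV
  obtain ⟨x, hx, hx'⟩ := h1 U (by omega) (fun _ => (q (Fin.last r)).comp U.subtype)
  refine ⟨x, fun h0 => hx (Subtype.ext h0), fun ρ => ?_⟩
  refine Fin.lastCases ?_ (fun ρ => ?_) ρ
  · exact hx' 0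
  · exact hq x x.2 ρ

theorem QI_all {K : Type} [Field K] (h1 : QI K 1 2) (r : ℕ) : QI K r (r * (r + 1)) := by
  induction r with
  | zero =>
    intro V _ _ _ hV q
    have : Nontrivial V := Module.nontrivial_of_finrank_pos (R := K) (by omega)
    obtain ⟨x, hx⟩ := exists_ne (0 : V)
    exact ⟨x, hx, fun ρ => ρ.elim0⟩
  | succ r ih =>
    have h2 := QI_succ h1 ih
    have h3 : r * (r + 1) + (r + 1) * 2 = (r + 1) * (r + 1 + 1) := by ring
    rwa [h3] at h2

/-- The quadratic form of a tensor. -/
def qf {K : Type} [Field K] {m : ℕ} (c : (Fin 2 → Fin m) → K) : QuadraticForm K (Fin m → K) where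
  toFun x := ev c x
  toFun_smul a x := by
    simp only [ev, Fin.prod_univ_two, Pi.smul_apply, smul_eq_mul, Finset.mul_sum]
    exact Finset.sum_congr rfl fun τ _ => by ring
  exists_companion' := ⟨LinearMap.mk₂ K (Bl c)
    (fun x y z => by
      simp only [Bl, ← Finset.sum_add_distrib, Pi.add_apply]
      exact Finset.sum_congr rfl fun τ _ => by ring)
    (fun a x y => by
      simp only [Bl, Finset.mul_sum, Pi.smul_apply, smul_eq_mul]
      exact Finset.sum_congr rfl fun τ _ => by ring)
    (fun x y z => by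
      simp only [Bl, ← Finset.sum_add_distrib, Pi.add_apply]
      exact Finset.sum_congr rfl fun τ _ => by ring)
    (fun a x y => by
      simp only [Bl, Finset.mul_sum, Pi.smul_apply, smul_eq_mul]
      exact Finset.sum_congr rfl fun τ _ => by ring), fun x y => by
    simp only [LinearMap.mk₂_apply, ev, Bl, Fin.prod_univ_two, Pi.add_apply,
      ← Finset.sum_add_distrib]
    exact Finset.sum_congr rfl fun τ _ => by ring⟩

theorem QI_one (R K : Type) [Field R] [IsRealClosed R] [Field K] [Algebra R K]
    (h : Growth R K 1) (hs : ∃ (s : ℕ) (α : Fin s → K), ∑ i, α i ^ 2 = -1) : QI K 1 2 := by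
  intro V _ _ _ hV q
  have hch : CharZero K := charZero_of_injective_algebraMap (algebraMap R K).injective
  have : Invertible (2 : K) := invertibleOfNonzero two_ne_zero
  let b := Module.finBasis K V
  obtain ⟨x, hx, h0⟩ := ternary R K h hs (Module.finrank K V) hV
    (fun τ => QuadraticMap.associated (R := K) (q 0) (b (τ 0)) (b (τ 1)))
  refine ⟨b.equivFun.symm x, fun h => hx ((LinearEquiv.map_eq_zero_iff _).1 h), fun ρ => ?_⟩
  have hρ : ρ = 0 := Subsingleton.elim _ _
  subst hρ
  rw [← h0, ← QuadraticMap.associated_eq_self_apply K (q 0), Module.Basis.equivFun_symm_apply]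
  simp only [map_sum, LinearMap.sum_apply, map_smul, LinearMap.smul_apply, smul_eq_mul,
    Finset.mul_sum]
  rw [ev, ← Equiv.sum_comp (finTwoArrowEquiv (Fin (Module.finrank K V))).symm,
    Fintype.sum_prod_type, Finset.sum_comm]
  refine Finset.sum_congr rfl fun i _ => Finset.sum_congr rfl fun j _ => ?_
  simp only [finTwoArrowEquiv_symm_apply, Fin.prod_univ_two, Matrix.cons_val_zero,
    Matrix.cons_val_one]
  ring

theorem quad_sys (R K : Type) [Field R] [IsRealClosed R] [Field K] [Algebra R K]
    (h : Growth R K 1) (hs : ∃ (s : ℕ) (α : Fin s → K), ∑ i, α i ^ 2 = -1) (r m : ℕ)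
    (hm : r * (r + 1) < m) (c : Fin r → (Fin 2 → Fin m) → K) :
    ∃ x : Fin m → K, x ≠ 0 ∧ ∀ ρ, ev (c ρ) x = 0 :=
  QI_all (QI_one R K h hs) r (Fin m → K) (by simpa using hm) fun ρ => qf (c ρ)

end LX
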