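import Pool.Agent.Lib.LX56.Vec

/-!
The restriction of a form `f` of degree `2 e` to the points `∑ a, tr (z a * w a)` is a form of
degree `e` in the norms of the `z a`, for suitable nonzero vectors `w a`.
-/

namespace LX

open LW LWR

/-- The point `∑ a, tr (z a * w a)`. -/
def pt {K : Type} [CommRing K] {k m : ℕ} (w : Fin k → Fin m → Cx K) (z : Fin k → Cx K)
    (l : Fin m) : K :=
  ∑ a, 2 * (z a * w a l).re

/-- The norm. -/
def nn {K : Type} [CommRing K] (z : Cx K) : K := z.re ^ 2 + z.im ^ 2

theorem mul_star_eq {K : Type} [CommRing K] (z : Cx K) : z * star z = algebraMap K (Cx K) (nn z) := by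
  have h1 : (algebraMap K (Cx K) (nn z)).re = nn z := rfl
  have h2 : (algebraMap K (Cx K) (nn z)).im = 0 := rfl
  ext
  · rw [h1]
    simp [nn]
    ring
  · rw [h2]
    simp
    ring

theorem algebraMap_pt {K : Type} [CommRing K] {k m : ℕ} (w : Fin k → Fin m → Cx K)
    (z : Fin k → Cx K) (l : Fin m) : algebraMap K (Cx K) (pt w z l) =
      ∑ p : Fin k × Bool, cj (z p.1) p.2 * cj (w p.1 l) p.2 := by
  rw [Fintype.sum_prod_type, pt, map_sum]
  refine Finset.sum_congr rfl fun a _ => ?_
  rw [Fintype.sum_bool]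
  simp only [cj, if_true, Bool.false_eq_true, if_false]
  ext
  · simp
    ring
  · simp
    ring

/-- The coefficients of the restriction. -/
def cof {K : Type} [CommRing K] {d k m : ℕ} (c : (Fin d → Fin m) → K) (w : Fin k → Fin m → Cx K)
    (σ : Fin d → Fin k × Bool) : Cx K :=
  ∑ τ : Fin d → Fin m, algebraMap K (Cx K) (c τ) * ∏ i, cj (w (σ i).1 (τ i)) (σ i).2

theorem expand {K : Type} [CommRing K] {d k m : ℕ} (c : (Fin d → Fin m) → K)
    (w : Fin k → Fin m → Cx K) (z : Fin k → Cx K) :
    algebraMap K (Cx K) (ev c (pt w z)) =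
      ∑ σ : Fin d → Fin k × Bool, (∏ i, cj (z (σ i).1) (σ i).2) * cof c w σ := by
  simp only [ev, map_sum, map_mul, map_prod, algebraMap_pt, cof]
  simp_rw [Finset.prod_univ_sum, Fintype.piFinset_univ, Finset.mul_sum]
  rw [Finset.sum_comm]
  refine Finset.sum_congr rfl fun σ _ => Finset.sum_congr rfl fun τ _ => ?_
  rw [Finset.prod_mul_distrib]
  ring

/-- The other conjugate. -/
def sw {k : ℕ} (p : Fin k × Bool) : Fin k × Bool := (p.1, !p.2)

theorem sw_sw {k : ℕ} (p : Fin k × Bool) : sw (sw p) = p := by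
  simp [sw]

/-- The type of `σ`. -/
def ty {d k : ℕ} (σ : Fin d → Fin k × Bool) : Sym (Fin k × Bool) d :=
  ⟨(Finset.univ : Finset (Fin d)).val.map σ, by simp⟩

/-- The weight of a type. -/
def ch {d k : ℕ} (t : Sym (Fin k × Bool) d) (a : Fin k) : ℤ :=
  (t.1.count (a, false) : ℤ) - t.1.count (a, true)

/-- The conjugate type. -/
def st {d k : ℕ} (t : Sym (Fin k × Bool) d) : Sym (Fin k × Bool) d := t.map sw

theorem st_st {d k : ℕ} (t : Sym (Fin k × Bool) d) : st (st t) = t := by
  rw [st, st, Sym.map_map]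
  have h : (sw ∘ sw : Fin k × Bool → Fin k × Bool) = id := funext sw_sw
  rw [h, Sym.map_id]

theorem st_ty {d k : ℕ} (σ : Fin d → Fin k × Bool) : ty (sw ∘ σ) = st (ty σ) := by
  apply Subtype.ext
  exact (Multiset.map_map sw σ (Finset.univ : Finset (Fin d)).val).symm

theorem ch_st {d k : ℕ} (t : Sym (Fin k × Bool) d) (a : Fin k) : ch (st t) a = - ch t a := by
  have hinj : Function.Injective (sw : Fin k × Bool → Fin k × Bool) :=
    Function.LeftInverse.injective sw_sw
  have h1 : ∀ p, (st t).1.count (sw p) = t.1.count p := by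
    intro p
    have h2 : (st t).1 = t.1.map sw := rfl
    rw [h2, Multiset.count_map_eq_count' _ _ hinj]
  have h2 := h1 (a, false)
  have h3 := h1 (a, true)
  simp only [sw, Bool.not_false, Bool.not_true] at h2 h3
  simp only [ch, h2, h3]
  ring

theorem ch_ty {d k : ℕ} (σ : Fin d → Fin k × Bool) (a : Fin k) : wt σ a = ch (ty σ) a := by
  have h1 : ∀ p, ((ty σ).1.count p : ℤ) = ∑ i, (if σ i = p then (1 : ℤ) else 0) := by
    intro p
    have h2 : (ty σ).1 = (Finset.univ : Finset (Fin d)).val.map σ := rfl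
    rw [h2, Multiset.count_map, Finset.sum_boole]
    congr 1
    rw [← Finset.filter_val, Finset.card_val]
    congr 1
    ext i
    simp [eq_comm]
  rw [ch, h1, h1, wt, ← Finset.sum_sub_distrib]
  refine Finset.sum_congr rfl fun i _ => ?_
  rcases hσ : σ i with ⟨a', b⟩
  by_cases ha : a' = a
  · subst ha
    cases b <;> simp
  · simp [ha]

theorem ch_le {d k : ℕ} (t : Sym (Fin k × Bool) d) (a : Fin k) : |ch t a| ≤ d := by
  have h1 : ∀ p, (t.1.count p : ℤ) ≤ d := by
    intro p
    have h2 := Multiset.count_le_card p t.1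
    rw [t.2] at h2
    exact_mod_cast h2
  have h2 := h1 (a, false)
  have h3 := h1 (a, true)
  rw [ch, abs_le]
  constructor
  · have : (0 : ℤ) ≤ t.1.count (a, false) := by positivity
    linarith
  · have : (0 : ℤ) ≤ t.1.count (a, true) := by positivity
    linarith

/-- A lexicographically positive weight. -/
def Pos {k : ℕ} (χ : Fin k → ℤ) : Prop := ∃ a, 0 < χ a ∧ ∀ a' < a, χ a' = 0

theorem Pos.ne {k : ℕ} {χ : Fin k → ℤ} (h : Pos χ) : χ ≠ 0 := by
  obtain ⟨a, ha, _⟩ := h
  intro h0
  rw [h0] at ha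
  simp at ha

theorem Pos.or {k : ℕ} {χ : Fin k → ℤ} (h : χ ≠ 0) : Pos χ ∨ Pos (-χ) := by
  classical
  have h1 : (Finset.univ.filter fun a => χ a ≠ 0).Nonempty := by
    obtain ⟨a, ha⟩ := Function.ne_iff.1 h
    exact ⟨a, by simpa using ha⟩
  set a := (Finset.univ.filter fun a => χ a ≠ 0).min' h1 with ha
  have h2 : χ a ≠ 0 := by
    have := Finset.min'_mem _ h1
    rw [← ha] at this
    simpa using this
  have h3 : ∀ a' < a, χ a' = 0 := by
    intro a' ha'
    by_contra hcon
    have := Finset.min'_le (Finset.univ.filter fun a => χ a ≠ 0) a' (by simpa using hcon)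
    rw [← ha] at this
    exact absurd ha' (not_lt.2 this)
  rcases lt_or_gt_of_ne h2 with h4 | h4
  · right
    refine ⟨a, by simpa using h4, fun a' ha' => ?_⟩
    simp [h3 a' ha']
  · left
    exact ⟨a, h4, h3⟩

theorem Pos.not_neg {k : ℕ} {χ : Fin k → ℤ} (h : Pos χ) : ¬ Pos (-χ) := by
  rintro ⟨b, hb, hb'⟩
  obtain ⟨a, ha, ha'⟩ := h
  simp only [Pi.neg_apply] at hb hb'
  rcases lt_trichotomy a b with h1 | h1 | h1
  · have := hb' a h1
    linarith
  · subst h1
    linarith
  · have := ha' b h1
    linarith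

/-- The coefficient of a type. -/
noncomputable def Q {K : Type} [CommRing K] {d k m : ℕ} (c : (Fin d → Fin m) → K)
    (w : Fin k → Fin m → Cx K) (t : Sym (Fin k × Bool) d) : Cx K := by
  classical
  exact ∑ σ, if ty σ = t then cof c w σ else 0

theorem cof_sw {K : Type} [CommRing K] {d k m : ℕ} (c : (Fin d → Fin m) → K)
    (w : Fin k → Fin m → Cx K) (σ : Fin d → Fin k × Bool) :
    cof c w (sw ∘ σ) = star (cof c w σ) := by
  simp only [cof, star_sum, star_mul', star_prod, star_alg]
  refine Finset.sum_congr rfl fun τ _ => ?_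
  congr 1
  refine Finset.prod_congr rfl fun i _ => ?_
  rcases hσ : σ i with ⟨a, b⟩
  simp only [Function.comp_apply, hσ, sw, cj]
  cases b <;> simp

theorem Q_st {K : Type} [CommRing K] {d k m : ℕ} (c : (Fin d → Fin m) → K)
    (w : Fin k → Fin m → Cx K) (t : Sym (Fin k × Bool) d) : Q c w (st t) = star (Q c w t) := by
  classical
  have hinv : Function.Involutive (fun σ : Fin d → Fin k × Bool => sw ∘ σ) := by
    intro σ
    funext i
    exact sw_sw _
  simp only [Q, star_sum]
  rw [← Equiv.sum_comp (Function.Involutive.toPerm _ hinv)]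
  refine Finset.sum_congr rfl fun σ _ => ?_
  have h1 : Function.Involutive.toPerm _ hinv σ = sw ∘ σ := rfl
  rw [h1, st_ty, cof_sw]
  have h2 : st (ty σ) = st t ↔ ty σ = t := by
    constructor
    · intro h
      have h3 := congrArg st h
      rwa [st_st, st_st] at h3
    · rintro rfl
      rfl
  simp only [h2]
  split_ifs
  · rfl
  · simp

/-- The monomial of a type. -/
def Zt {K : Type} [CommRing K] {d k : ℕ} (z : Fin k → Cx K) (t : Sym (Fin k × Bool) d) : Cx K :=
  (t.1.map fun p => cj (z p.1) p.2).prod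

theorem Zt_ty {K : Type} [CommRing K] {d k : ℕ} (z : Fin k → Cx K) (σ : Fin d → Fin k × Bool) :
    Zt z (ty σ) = ∏ i, cj (z (σ i).1) (σ i).2 := by
  have h1 : (ty σ).1 = (Finset.univ : Finset (Fin d)).val.map σ := rfl
  rw [Zt, h1, Multiset.map_map]
  rfl

theorem Zt_zero {K : Type} [CommRing K] {d k : ℕ} (z : Fin k → Cx K) (t : Sym (Fin k × Bool) d)
    (ht : ch t = 0) :
    Zt z t = algebraMap K (Cx K) (∏ a, nn (z a) ^ t.1.count (a, false)) := by
  classical
  have h1 : Zt z t = ∏ p : Fin k × Bool, cj (z p.1) p.2 ^ t.1.count p := by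
    rw [Zt, Finset.prod_multiset_map_count]
    refine Finset.prod_subset (Finset.subset_univ _) fun p _ hp => ?_
    rw [Multiset.mem_toFinset] at hp
    rw [Multiset.count_eq_zero_of_notMem hp, pow_zero]
  rw [h1, Fintype.prod_prod_type, map_prod]
  refine Finset.prod_congr rfl fun a _ => ?_
  rw [Fintype.prod_bool]
  have h2 : t.1.count (a, true) = t.1.count (a, false) := by
    have h3 := congrFun ht a
    simp only [ch, Pi.zero_apply] at h3
    omega
  simp only [h2, cj, if_true, Bool.false_eq_true, if_false]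
  rw [← mul_pow, map_pow, ← mul_star_eq, mul_comm]

/-- The restriction as a polynomial in the norms. -/
noncomputable def F {K : Type} [CommRing K] {d k m : ℕ} (c : (Fin d → Fin m) → K)
    (w : Fin k → Fin m → Cx K) : MvPolynomial (Fin k) K := by
  classical
  exact ∑ t : Sym (Fin k × Bool) d, if ch t = 0 then
    MvPolynomial.C (Q c w t).re * ∏ a, MvPolynomial.X a ^ t.1.count (a, false) else 0

theorem F_hom {K : Type} [CommRing K] {e k m : ℕ} (c : (Fin (2 * e) → Fin m) → K)
    (w : Fin k → Fin m → Cx K) : (F c w).IsHomogeneous e := by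
  classical
  rw [F]
  refine MvPolynomial.IsHomogeneous.sum _ _ _ fun t _ => ?_
  split_ifs with ht
  · have h1 : ∑ a, t.1.count (a, false) = e := by
      have h2 : ∑ p : Fin k × Bool, t.1.count p = 2 * e := by
        rw [Multiset.sum_count_eq_card (fun p _ => Finset.mem_univ p)]
        exact t.2
      rw [Fintype.sum_prod_type] at h2
      have h3 : ∀ a, ∑ b, t.1.count (a, b) = 2 * t.1.count (a, false) := by
        intro a
        have h4 := congrFun ht a
        simp only [ch, Pi.zero_apply] at h4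
        rw [Fintype.sum_bool]
        omega
      simp only [h3] at h2
      rw [← Finset.mul_sum] at h2
      omega
    have h2 := (MvPolynomial.isHomogeneous_C (Fin k) (Q c w t).re).mul
      (MvPolynomial.IsHomogeneous.prod Finset.univ
        (fun a => (MvPolynomial.X a : MvPolynomial (Fin k) K) ^ t.1.count (a, false))
        (fun a => t.1.count (a, false)) (fun a _ => MvPolynomial.isHomogeneous_X_pow _ _))
    rwa [h1, zero_add] at h2
  · exact MvPolynomial.isHomogeneous_zero _ _ _

theorem eval_F {K : Type} [CommRing K] {d k m : ℕ} (c : (Fin d → Fin m) → K)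
    (w : Fin k → Fin m → Cx K) (hQ : ∀ t, Pos (ch t) → Q c w t = 0) (z : Fin k → Cx K) :
    ev c (pt w z) = MvPolynomial.eval (fun a => nn (z a)) (F c w) := by
  classical
  have hQ' : ∀ t, ch t ≠ 0 → Q c w t = 0 := by
    intro t ht
    rcases Pos.or ht with h | h
    · exact hQ t h
    · have h1 : ch (st t) = - ch t := funext fun a => ch_st t a
      have h2 := hQ (st t) (by rwa [h1])
      rw [Q_st] at h2
      have h3 := congrArg star h2
      simpa using h3
  have h1 : algebraMap K (Cx K) (ev c (pt w z)) = ∑ t, Zt z t * Q c w t := by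
    rw [expand]
    simp only [Q, Finset.mul_sum]
    rw [Finset.sum_comm]
    refine Finset.sum_congr rfl fun σ _ => ?_
    simp only [mul_ite, mul_zero]
    rw [Finset.sum_ite_eq Finset.univ (ty σ) (fun t => Zt z t * cof c w σ),
      if_pos (Finset.mem_univ _), Zt_ty]
  have h2 : ev c (pt w z) = (algebraMap K (Cx K) (ev c (pt w z))).re := rfl
  rw [h2, h1, F, map_sum]
  have h3 : ∀ (s : Finset (Sym (Fin k × Bool) d)) (g : Sym (Fin k × Bool) d → Cx K),
      (∑ t ∈ s, g t).re = ∑ t ∈ s, (g t).re := by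
    intro s g
    induction s using Finset.induction_on with
    | empty => simp
    | insert t s ht ih => rw [Finset.sum_insert ht, Finset.sum_insert ht, ← ih]; rfl
  rw [h3]
  refine Finset.sum_congr rfl fun t _ => ?_
  split_ifs with ht
  · rw [Zt_zero z t ht, ← Algebra.smul_def]
    have h4 : ∀ (x : K) (y : Cx K), (x • y).re = x * y.re := fun x y => rfl
    rw [h4]
    simp [mul_comm]
  · rw [hQ' t ht]
    simp

end LX
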