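import Pool.Agent.Lib.LX56.Res
import Pool.Agent.Lib.LWR.Main

/-!
The number of the positive types, and the step from forms of degree `e` to forms of degree `2 e`.
-/

namespace LX

open LW LWR

/-- The number of positive types. -/
noncomputable def cp (k d : ℕ) : ℕ := by
  classical
  exact Fintype.card {t : Sym (Fin k × Bool) d // Pos (ch t)}

/-- Doubling of a multiset. -/
def dbl {k e : ℕ} (s : Sym (Fin k) e) : Sym (Fin k × Bool) (2 * e) :=
  ⟨(s.1.map fun a => (a, false)) + s.1.map fun a => (a, true), by
    rw [Multiset.card_add, Multiset.card_map, Multiset.card_map, s.2]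
    ring⟩

theorem dbl_count {k e : ℕ} (s : Sym (Fin k) e) (a : Fin k) (b : Bool) :
    (dbl s).1.count (a, b) = s.1.count a := by
  have h0 : (dbl s).1 = (s.1.map fun a => (a, false)) + s.1.map fun a => (a, true) := rfl
  have h1 : ∀ b : Bool, Function.Injective fun a : Fin k => (a, b) := by
    intro b x y hxy
    exact congrArg Prod.fst hxy
  have h2 : ∀ b : Bool, (s.1.map fun a => (a, b)).count (a, b) = s.1.count a := fun b =>
    Multiset.count_map_eq_count' _ _ (h1 b) a
  have h3 : ∀ b b' : Bool, b ≠ b' → (s.1.map fun a => (a, b)).count (a, b') = 0 := by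
    intro b b' hb
    rw [Multiset.count_eq_zero]
    intro hcon
    obtain ⟨x, _, hx⟩ := Multiset.mem_map.1 hcon
    exact hb (congrArg Prod.snd hx)
  rw [h0, Multiset.count_add]
  cases b
  · rw [h2 false, h3 true false (by simp)]
    rfl
  · rw [h2 true, h3 false true (by simp), zero_add]

theorem cp_le (e k : ℕ) : 2 * cp k (2 * e) + (k + e - 1).choose e ≤
    (2 * k + 2 * e - 1).choose (2 * e) := by
  classical
  set A : Finset (Sym (Fin k × Bool) (2 * e)) := Finset.univ.filter fun t => Pos (ch t) with hA
  set B : Finset (Sym (Fin k × Bool) (2 * e)) := Finset.univ.filter fun t => Pos (-ch t) with hB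
  set C : Finset (Sym (Fin k × Bool) (2 * e)) := Finset.univ.filter fun t => ch t = 0 with hC
  have h1 : cp k (2 * e) = A.card := by
    rw [cp, Fintype.card_subtype]
  have h2 : A.card = B.card := by
    refine Finset.card_bij (fun t _ => st t) ?_ ?_ ?_
    · intro t ht
      rw [hA, Finset.mem_filter] at ht
      rw [hB, Finset.mem_filter]
      refine ⟨Finset.mem_univ _, ?_⟩
      have h3 : -ch (st t) = ch t := by
        funext a
        rw [Pi.neg_apply, ch_st, neg_neg]
      rw [h3]
      exact ht.2
    · intro t _ t' _ htt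
      have h3 := congrArg st htt
      simpa [st_st] using h3
    · intro t ht
      rw [hB, Finset.mem_filter] at ht
      refine ⟨st t, ?_, st_st t⟩
      rw [hA, Finset.mem_filter]
      refine ⟨Finset.mem_univ _, ?_⟩
      have h3 : ch (st t) = -ch t := funext fun a => ch_st t a
      rw [h3]
      exact ht.2
  have h3 : (k + e - 1).choose e ≤ C.card := by
    have h4 : Fintype.card (Sym (Fin k) e) = (k + e - 1).choose e := by
      rw [Sym.card_sym_eq_choose, Fintype.card_fin]
    rw [← h4, ← Finset.card_univ]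
    refine Finset.card_le_card_of_injOn dbl ?_ ?_
    · intro s _
      rw [hC]
      simp only [Finset.coe_filter, Finset.mem_univ, true_and, Set.mem_ofPred_eq]
      funext a
      rw [ch, dbl_count, dbl_count, sub_self]
      rfl
    · intro s _ s' _ hss
      apply Subtype.ext
      ext a
      rw [← dbl_count s a true, ← dbl_count s' a true, hss]
  have h4 : Fintype.card (Sym (Fin k × Bool) (2 * e)) = (2 * k + 2 * e - 1).choose (2 * e) := by
    rw [Sym.card_sym_eq_choose, Fintype.card_prod, Fintype.card_fin, Fintype.card_bool, mul_comm k 2]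
  have hAB : Disjoint A B := by
    rw [Finset.disjoint_left]
    intro t ht ht'
    rw [hA, Finset.mem_filter] at ht
    rw [hB, Finset.mem_filter] at ht'
    exact ht.2.not_neg ht'.2
  have hABC : Disjoint (A ∪ B) C := by
    rw [Finset.disjoint_left]
    intro t ht ht'
    rw [hC, Finset.mem_filter] at ht'
    rcases Finset.mem_union.1 ht with h | h
    · rw [hA, Finset.mem_filter] at h
      exact h.2.ne ht'.2
    · rw [hB, Finset.mem_filter] at h
      exact h.2.ne (by rw [ht'.2, neg_zero])
  have h5 : (A ∪ B ∪ C).card ≤ Fintype.card (Sym (Fin k × Bool) (2 * e)) := Finset.card_le_univ _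
  rw [Finset.card_union_of_disjoint hABC, Finset.card_union_of_disjoint hAB, h4, ← h2, ← h1] at h5
  omega

/-- The restriction to the norms. -/
theorem restrict (R K : Type) [Field R] [IsRealClosed R] [Field K] [Algebra R K] (n : ℕ)
    (h : Growth R K n) (r d k m : ℕ) (f : Fin r → MvPolynomial (Fin m) K)
    (hf : ∀ ρ, (f ρ).IsHomogeneous d) (hcard : r * cp k d * d ^ n < m) :
    ∃ (w : Fin k → Fin m → Cx K) (c : Fin r → (Fin d → Fin m) → K), (∀ a, w a ≠ 0) ∧
      ∀ ρ z, MvPolynomial.eval (pt w z) (f ρ) =
        MvPolynomial.eval (fun a => nn (z a)) (F (c ρ) w) := by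
  classical
  choose c hc using fun ρ => LWR.exists_tensor (f ρ) (hf ρ)
  obtain ⟨w, hw, hz⟩ := kvec R K n h (J := Fin r × {t : Sym (Fin k × Bool) d // Pos (ch t)}) k d m
    (fun j σ => decide (ty σ = j.2.1)) (fun j => ch j.2.1) (fun j => j.2.2.ne)
    (fun j a => ch_le j.2.1 a)
    (fun j σ hj a => by
      have h1 : ty σ = j.2.1 := by simpa using hj
      rw [ch_ty, h1]) (fun j _ τ => algebraMap K (Cx K) (c j.1 τ)) (by
      have h1 : cp k d = Fintype.card {t : Sym (Fin k × Bool) d // Pos (ch t)} := by
        rw [cp]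
      rwa [Fintype.card_prod, Fintype.card_fin, ← h1])
  refine ⟨w, c, hw, fun ρ z => ?_⟩
  rw [hc]
  refine eval_F (c ρ) w (fun t ht => ?_) z
  rw [← hz (ρ, ⟨t, ht⟩), Q]
  refine Finset.sum_congr rfl fun σ _ => ?_
  by_cases h1 : ty σ = t
  · simp only [h1, if_true, decide_true, cof]
  · simp [h1]

/-- The step from `g` to `f`. -/
theorem step (K : Type) [Field K] [CharZero K] (hN : ∀ b : K, ∃ z : Cx K, nn z = b) {k m : ℕ}
    {r : ℕ} (w : Fin k → Fin m → Cx K) (hw : ∀ a, w a ≠ 0) (g : Fin r → MvPolynomial (Fin k) K)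
    (hg : ∃ y : Fin k → K, y ≠ 0 ∧ ∀ ρ, MvPolynomial.eval y (g ρ) = 0)
    (f : Fin r → MvPolynomial (Fin m) K) (hfg : ∀ ρ z, MvPolynomial.eval (pt w z) (f ρ) =
      MvPolynomial.eval (fun a => nn (z a)) (g ρ)) :
    ∃ x : Fin m → K, x ≠ 0 ∧ ∀ ρ, MvPolynomial.eval x (f ρ) = 0 := by
  classical
  obtain ⟨y, hy, hyg⟩ := hg
  choose N hN using hN
  obtain ⟨a, ha⟩ := Function.ne_iff.1 hy
  let z : Fin k → Cx K := fun a => N (y a)
  have hz : (fun a => nn (z a)) = y := funext fun a => hN _
  have key : ∀ u : Cx K, nn u = 1 →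
      ∀ ρ, MvPolynomial.eval (pt w (Function.update z a (u * z a))) (f ρ) = 0 := by
    intro u hu ρ
    have h0 : (fun b => nn (Function.update z a (u * z a) b)) = y := by
      refine Eq.trans ?_ hz
      funext b
      by_cases hb : b = a
      · subst hb
        simp only [Function.update_self]
        have h1 : nn (u * z b) = nn u * nn (z b) := by
          simp only [nn, QuadraticAlgebra.re_mul, QuadraticAlgebra.im_mul]
          ring
        rw [h1, hu, one_mul]
      · rw [Function.update_of_ne hb]
    rw [hfg, h0, hyg]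
  by_contra hcon
  rw [not_exists] at hcon
  have h0 : ∀ u : Cx K, nn u = 1 → pt w (Function.update z a (u * z a)) = 0 := by
    intro u hu
    by_contra h
    exact hcon _ ⟨h, key u hu⟩
  have h1 : ∀ (u : Cx K) (l : Fin m), nn u = 1 →
      2 * (u * z a * w a l).re + ∑ b ∈ Finset.univ.erase a, 2 * (z b * w b l).re = 0 := by
    intro u l hu
    have h2 := congrFun (h0 u hu) l
    rw [pt, ← Finset.add_sum_erase _ _ (Finset.mem_univ a)] at h2
    simp only [Function.update_self, Pi.zero_apply] at h2
    refine Eq.trans ?_ h2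
    congr 1
    refine Finset.sum_congr rfl fun b hb => ?_
    rw [Function.update_of_ne (Finset.ne_of_mem_erase hb)]
  have h5 : (5 : K) ≠ 0 := by norm_num
  have h2 : ∀ l, z a * w a l = 0 := by
    intro l
    have h3 := h1 ⟨1, 0⟩ l (by simp [nn])
    have h4 := h1 ⟨-1, 0⟩ l (by simp [nn])
    have h6 := h1 ⟨3 / 5, 4 / 5⟩ l (by
      simp only [nn]
      field_simp
      norm_num)
    set v := z a * w a l with hv
    generalize ∑ b ∈ Finset.univ.erase a, 2 * (z b * w b l).re = t at h3 h4 h6
    simp only [mul_assoc, ← hv] at h3 h4 h6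
    simp only [QuadraticAlgebra.re_mul] at h3 h4 h6
    have h7 : v.re = 0 := by
      have : (4 : K) * v.re = 0 := by linear_combination h3 - h4
      have h4 : (4 : K) ≠ 0 := by norm_num
      exact (mul_eq_zero.1 this).resolve_left h4
    have h8 : v.im = 0 := by
      rw [h7] at h3 h6
      have : (8 : K) * v.im = 0 := by
        field_simp at h6
        linear_combination (exp := 1) 5 * h3 - h6
      have h8 : (8 : K) ≠ 0 := by norm_num
      exact (mul_eq_zero.1 this).resolve_left h8
    ext
    · exact h7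
    · exact h8
  apply hw a
  funext l
  have h3 := congrArg (fun y => star (z a) * y) (h2 l)
  simp only [mul_zero] at h3
  rw [← mul_assoc, mul_comm (star (z a)), mul_star_eq, ← Algebra.smul_def] at h3
  have h4 : nn (z a) = y a := hN _
  rw [h4] at h3
  have h6 : (y a)⁻¹ • y a • w a l = 0 := by rw [h3, smul_zero]
  rwa [smul_smul, inv_mul_cancel₀ ha, one_smul] at h6

end LX
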