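import Pool.Agent.Lib.LX56.Uni

/-!
Nonreal fields of transcendence degree one over real closed fields: ternary quadratic forms are
isotropic.
-/

namespace LX

open LW LWR

/-- The polar form. -/
def Bl {K : Type} [CommRing K] {m : ℕ} (c : (Fin 2 → Fin m) → K) (x y : Fin m → K) : K :=
  ∑ τ : Fin 2 → Fin m, c τ * (x (τ 0) * y (τ 1) + y (τ 0) * x (τ 1))

/-- The polar form as a linear map. -/
def BlL {K : Type} [Field K] {m : ℕ} (c : (Fin 2 → Fin m) → K) (x : Fin m → K) :
    (Fin m → K) →ₗ[K] K where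
  toFun y := Bl c x y
  map_add' y z := by
    simp only [Bl, ← Finset.sum_add_distrib]
    refine Finset.sum_congr rfl fun τ _ => ?_
    simp only [Pi.add_apply]
    ring
  map_smul' a y := by
    simp only [Bl, RingHom.id_apply, smul_eq_mul, Finset.mul_sum]
    refine Finset.sum_congr rfl fun τ _ => ?_
    simp only [Pi.smul_apply, smul_eq_mul]
    ring

theorem ev_three {K : Type} [Field K] {m : ℕ} (c : (Fin 2 → Fin m) → K) (x y z : Fin m → K)
    (u v : K) : ev c (u • x + v • y + z) = u ^ 2 * ev c x + v ^ 2 * ev c y + ev c z +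
      u * v * Bl c x y + u * Bl c x z + v * Bl c y z := by
  simp only [ev, Bl, Finset.mul_sum, ← Finset.sum_add_distrib]
  refine Finset.sum_congr rfl fun τ _ => ?_
  simp only [Fin.prod_univ_two, Pi.add_apply, Pi.smul_apply, smul_eq_mul]
  ring

/-- The value of `i`. -/
def hm {K : Type} [Field K] (j : K) (hj : j ^ 2 = -1) : Cx K →+* K where
  toFun z := z.re + j * z.im
  map_one' := by simp [QuadraticAlgebra.re_one, QuadraticAlgebra.im_one]
  map_mul' x y := by
    simp only [QuadraticAlgebra.re_mul, QuadraticAlgebra.im_mul]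
    linear_combination (-(x.im * y.im)) * hj
  map_zero' := by simp
  map_add' x y := by
    simp only [QuadraticAlgebra.re_add, QuadraticAlgebra.im_add]
    ring

theorem map_ev' {A B : Type} [CommRing A] [CommRing B] (φ : A →+* B) {m d : ℕ}
    (c : (Fin d → Fin m) → A) (x : Fin m → A) :
    φ (ev c x) = ev (fun τ => φ (c τ)) fun l => φ (x l) := by
  simp only [ev, map_sum, map_mul, map_prod]

/-- If `K` contains `i`, every form of degree `d` in more than `d ^ n` variables is isotropic. -/
theorem iso_of_i (R K : Type) [Field R] [IsRealClosed R] [Field K] [Algebra R K] (n : ℕ)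
    (h : Growth R K n) (j : K) (hj : j ^ 2 = -1) (d m : ℕ) (hd : 1 ≤ d) (hm' : d ^ n < m)
    (c : (Fin d → Fin m) → K) : ∃ x : Fin m → K, x ≠ 0 ∧ ev c x = 0 := by
  have hch : CharZero K := charZero_of_injective_algebraMap (algebraMap R K).injective
  obtain ⟨w, hw, hz⟩ := isoL R K n h d m hd hm' fun τ => algebraMap K (Cx K) (c τ)
  have key : ∀ (j : K) (hj : j ^ 2 = -1), ev c (fun l => hm j hj (w l)) = 0 := by
    intro j hj
    have h1 := congrArg (hm j hj) hz
    rw [map_ev', map_zero] at h1
    have h2 : ∀ a : K, hm j hj (algebraMap K (Cx K) a) = a := by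
      intro a
      simp [hm]
    simpa only [h2] using h1
  have hj' : (-j) ^ 2 = -1 := by rw [neg_sq, hj]
  have hj0 : j ≠ 0 := by
    rintro rfl
    norm_num at hj
  by_cases h1 : (fun l => hm j hj (w l)) = 0
  · refine ⟨fun l => hm (-j) hj' (w l), fun h2 => ?_, key _ _⟩
    apply hw
    funext l
    have h3 := congrFun h1 l
    have h4 := congrFun h2 l
    simp only [hm, RingHom.coe_mk, MonoidHom.coe_mk, OneHom.coe_mk, Pi.zero_apply] at h3 h4
    have h5 : (w l).re = 0 := by
      have : 2 * (w l).re = 0 := by linear_combination h3 + h4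
      exact (mul_eq_zero.1 this).resolve_left two_ne_zero
    have h6 : (w l).im = 0 := by
      have : j * (w l).im = 0 := by linear_combination h3 - h5
      exact (mul_eq_zero.1 this).resolve_left hj0
    ext
    · exact h5
    · exact h6
  · exact ⟨_, h1, key _ _⟩

/-- Quadratic forms in at least three variables are isotropic. -/
theorem ternary (R K : Type) [Field R] [IsRealClosed R] [Field K] [Algebra R K]
    (h : Growth R K 1) (hs : ∃ (s : ℕ) (α : Fin s → K), ∑ i, α i ^ 2 = -1) (m : ℕ) (hm : 2 < m)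
    (c : (Fin 2 → Fin m) → K) : ∃ x : Fin m → K, x ≠ 0 ∧ ev c x = 0 := by
  have hch : CharZero K := charZero_of_injective_algebraMap (algebraMap R K).injective
  by_cases hi : ∃ j : K, j ^ 2 = -1
  · obtain ⟨j, hj⟩ := hi
    exact iso_of_i R K 1 h j hj 2 m (by norm_num) (by simpa using hm) c
  · have hi' : ∀ j : K, j ^ 2 ≠ -1 := fun j hj => hi ⟨j, hj⟩
    by_contra hcon
    simp only [not_exists, not_and] at hcon
    have hker : ∀ φ : (Fin m → K) →ₗ[K] (Fin 2 → K), ∃ v, φ v = 0 ∧ v ≠ 0 := by
      intro φ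
      have h1 : LinearMap.ker φ ≠ ⊥ := LinearMap.ker_ne_bot_of_finrank_lt (by simpa using hm)
      obtain ⟨v, hv, hv0⟩ := Submodule.exists_mem_ne_zero_of_ne_bot h1
      exact ⟨v, by simpa using hv, hv0⟩
    obtain ⟨v₁, _, hv₁⟩ := hker 0
    obtain ⟨v₂, h12, hv₂⟩ := hker (LinearMap.pi ![BlL c v₁, 0])
    obtain ⟨v₃, h3, hv₃⟩ := hker (LinearMap.pi ![BlL c v₁, BlL c v₂])
    have h12' : Bl c v₁ v₂ = 0 := congrFun h12 0
    have h13 : Bl c v₁ v₃ = 0 := congrFun h3 0
    have h23 : Bl c v₂ v₃ = 0 := congrFun h3 1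
    have q1 := hcon v₁ hv₁
    have q2 := hcon v₂ hv₂
    have q3 := hcon v₃ hv₃
    obtain ⟨β, hβ⟩ := norm_univ R K h hs (-(ev c v₃) / ev c v₁)
    obtain ⟨u, v, huv⟩ := claimA R K h hi' (-(ev c v₂) / ev c v₁)
      (div_ne_zero (neg_ne_zero.2 q2) q1) β
    rw [hβ] at huv
    have h1 : ev c (u • v₁ + v • v₂ + v₃) = 0 := by
      rw [ev_three, h12', h13, h23]
      field_simp at huv
      linear_combination -huv
    refine hcon _ (fun h0 => ?_) h1
    have h2 : BlL c v₃ (u • v₁ + v • v₂ + v₃) = 2 * ev c v₃ := by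
      have hsym : ∀ x y, BlL c x y = Bl c y x := by
        intro x y
        show Bl c x y = Bl c y x
        simp only [Bl]
        exact Finset.sum_congr rfl fun τ _ => by ring
      rw [map_add, map_add, map_smul, map_smul, hsym, hsym, hsym, h13, h23]
      simp only [smul_zero, zero_add, Bl, ev, Fin.prod_univ_two, Finset.mul_sum]
      exact Finset.sum_congr rfl fun τ _ => by ring
    rw [h0, map_zero] at h2
    exact q3 ((mul_eq_zero.1 h2.symm).resolve_left two_ne_zero)

end LX
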