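import Pool.Agent.Lib.LX56.Stp

/-!
Nonreal fields of transcendence degree one over real closed fields: the norm form of `K[i]` and all
binary forms are universal.
-/

namespace LX

open LW LWR

/-- Forms over `K[i]`. -/
theorem isoL (R K : Type) [Field R] [IsRealClosed R] [Field K] [Algebra R K] (n : ℕ)
    (h : Growth R K n) (d m : ℕ) (hd : 1 ≤ d) (hm : d ^ n < m) (c : (Fin d → Fin m) → Cx K) :
    ∃ w : Fin m → Cx K, w ≠ 0 ∧ ev c w = 0 := by
  classical
  obtain ⟨w, hw, hz⟩ := kvec R K n h (J := Unit) 1 d m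
    (fun _ σ => decide (∀ i, (σ i).2 = false)) (fun _ _ => (d : ℤ))
    (fun _ h0 => by
      have := congrFun h0 0
      simp only [Pi.zero_apply, Nat.cast_eq_zero] at this
      omega) (fun _ _ => by rw [abs_of_nonneg (by positivity)])
    (fun _ σ hσ a => by
      have h1 : ∀ i, (σ i).2 = false := by simpa using hσ
      simp only [wt, h1]
      have h2 : ∀ i, (σ i).1 = a := fun i => Subsingleton.elim _ _
      simp [h2]) (fun _ _ τ => c τ) (by simpa using hm)
  refine ⟨w 0, hw 0, ?_⟩
  have h1 := hz ()
  rw [Finset.sum_eq_single (fun _ => ((0 : Fin 1), false))] at h1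
  · simpa [cj, ev] using h1
  · intro σ _ hσ
    refine Finset.sum_eq_zero fun τ _ => ?_
    rw [if_neg]
    intro hcon
    apply hσ
    funext i
    have h2 : ∀ i, (σ i).2 = false := by simpa using hcon
    exact Prod.ext (Subsingleton.elim _ _) (h2 i)
  · intro hcon
    exact absurd (Finset.mem_univ _) hcon

theorem ev_diag {A : Type} [CommRing A] {m : ℕ} (γ : Fin m → A) (x : Fin m → A) :
    ev (d := 2) (fun τ => if τ 0 = τ 1 then γ (τ 0) else 0) x = ∑ l, γ l * x l ^ 2 := by
  rw [ev, ← Equiv.sum_comp (finTwoArrowEquiv (Fin m)).symm, Fintype.sum_prod_type]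
  refine Finset.sum_congr rfl fun a _ => ?_
  simp only [finTwoArrowEquiv_symm_apply, Fin.prod_univ_two, Matrix.cons_val_zero,
    Matrix.cons_val_one, ite_mul, zero_mul]
  rw [Finset.sum_ite_eq Finset.univ a, if_pos (Finset.mem_univ _), sq]

theorem nn_mul {A : Type} [CommRing A] (x y : Cx A) : nn (x * y) = nn x * nn y := by
  simp only [nn, QuadraticAlgebra.re_mul, QuadraticAlgebra.im_mul]
  ring

theorem nn_zero {K : Type} [Field K] (hi : ∀ j : K, j ^ 2 ≠ -1) (x : Cx K) (hx : nn x = 0) :
    x = 0 := by
  simp only [nn] at hx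
  have h1 : x.im = 0 := by
    by_contra h0
    apply hi (x.re / x.im)
    rw [div_pow, div_eq_iff (pow_ne_zero 2 h0)]
    linear_combination hx
  have h2 : x.re = 0 := by
    rw [h1] at hx
    simpa using hx
  ext
  · exact h2
  · exact h1

theorem claimA (R K : Type) [Field R] [IsRealClosed R] [Field K] [Algebra R K]
    (h : Growth R K 1) (hi : ∀ j : K, j ^ 2 ≠ -1) (e : K) (he : e ≠ 0) (β : Cx K) :
    ∃ u v : K, nn β = u ^ 2 - e * v ^ 2 := by
  have hch : CharZero K := charZero_of_injective_algebraMap (algebraMap R K).injective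
  obtain ⟨w, hw, hz⟩ := isoL R K 1 h 2 3 (by norm_num) (by norm_num)
    (fun τ => if τ 0 = τ 1 then (![1, algebraMap K (Cx K) (-e), -β] : Fin 3 → Cx K) (τ 0) else 0)
  rw [ev_diag, Fin.sum_univ_three] at hz
  replace hz : 1 * w 0 ^ 2 + algebraMap K (Cx K) (-e) * w 1 ^ 2 + -β * w 2 ^ 2 = 0 := hz
  rw [map_neg] at hz
  set p := w 0 with hp
  set q := w 1 with hq
  set r := w 2 with hr
  have h1 : p ^ 2 - algebraMap K (Cx K) e * q ^ 2 = β * r ^ 2 := by linear_combination hz
  have h2 : nn (p ^ 2 - algebraMap K (Cx K) e * q ^ 2) =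
      (nn p + e * nn q) ^ 2 - e * (2 * (p.re * q.re + p.im * q.im)) ^ 2 := by
    simp only [nn, sq, QuadraticAlgebra.re_mul, QuadraticAlgebra.im_mul, QuadraticAlgebra.re_sub,
      QuadraticAlgebra.im_sub, QuadraticAlgebra.algebraMap_re, QuadraticAlgebra.algebraMap_im]
    ring
  by_cases hr0 : r = 0
  · -- `e` is a square in `K[i]`
    have hq0 : q ≠ 0 := by
      intro hq0
      apply hw
      rw [hr0, hq0] at h1
      have h3 : nn p ^ 2 = 0 := by
        have h4 : p ^ 2 = 0 := by simpa using h1
        have h5 : nn (p * p) = nn p * nn p := nn_mul p p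
        rw [← sq, h4] at h5
        rw [sq, ← h5]
        simp [nn]
      have h4 : p = 0 := nn_zero hi p (by simpa using h3)
      funext l
      fin_cases l
      · exact h4
      · exact hq0
      · exact hr0
    have hnq : nn q ≠ 0 := fun h0 => hq0 (nn_zero hi q h0)
    -- `g = p / q`
    set g : Cx K := (nn q)⁻¹ • (p * star q) with hg
    have hg2 : g ^ 2 = algebraMap K (Cx K) e := by
      have h3 : p ^ 2 = algebraMap K (Cx K) e * q ^ 2 := by
        rw [hr0] at h1
        linear_combination h1
      have h4 : g ^ 2 = ((nn q)⁻¹ ^ 2) • (p ^ 2 * star q ^ 2) := by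
        rw [hg, smul_pow, mul_pow]
      rw [h4, h3]
      have h5 : algebraMap K (Cx K) e * q ^ 2 * star q ^ 2 =
          algebraMap K (Cx K) e * (algebraMap K (Cx K) (nn q)) ^ 2 := by
        rw [← mul_star_eq]
        ring
      rw [h5, ← map_pow, ← map_mul, Algebra.smul_def, ← map_mul]
      congr 1
      field_simp
    have h3 := congrArg QuadraticAlgebra.re hg2
    have h4 := congrArg QuadraticAlgebra.im hg2
    simp only [sq, QuadraticAlgebra.re_mul, QuadraticAlgebra.im_mul, QuadraticAlgebra.algebraMap_re,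
      QuadraticAlgebra.algebraMap_im] at h3 h4
    have h5 : g.re = 0 ∨ g.im = 0 := by
      have h6 : 2 * (g.re * g.im) = 0 := by linear_combination h4
      have h7 : g.re * g.im = 0 := (mul_eq_zero.1 h6).resolve_left two_ne_zero
      exact mul_eq_zero.1 h7
    rcases h5 with h5 | h5
    · -- `e = - g.im ^ 2`
      have h6 : e = -g.im ^ 2 := by
        rw [h5] at h3
        linear_combination -h3
      have h7 : g.im ≠ 0 := by
        intro h0
        apply he
        rw [h6, h0]
        ring
      refine ⟨β.re, β.im / g.im, ?_⟩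
      rw [h6, nn]
      field_simp
      ring
    · have h6 : e = g.re ^ 2 := by
        rw [h5] at h3
        linear_combination -h3
      have h7 : g.re ≠ 0 := by
        intro h0
        apply he
        rw [h6, h0]
        ring
      refine ⟨(nn β + 1) / 2, (nn β - 1) / (2 * g.re), ?_⟩
      rw [h6]
      field_simp
      ring
  · have hnr : nn r ≠ 0 := fun h0 => hr0 (nn_zero hi r h0)
    refine ⟨(nn p + e * nn q) / nn r, 2 * (p.re * q.re + p.im * q.im) / nn r, ?_⟩
    have h3 : nn (β * r ^ 2) = nn β * nn r ^ 2 := by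
      rw [sq, nn_mul, nn_mul, sq]
    rw [← h1, h2] at h3
    field_simp
    linear_combination -h3

theorem norm_univ (R K : Type) [Field R] [IsRealClosed R] [Field K] [Algebra R K]
    (h : Growth R K 1) (hs : ∃ (s : ℕ) (α : Fin s → K), ∑ i, α i ^ 2 = -1) (b : K) :
    ∃ z : Cx K, nn z = b := by
  have hch : CharZero K := charZero_of_injective_algebraMap (algebraMap R K).injective
  by_cases hi : ∃ j : K, j ^ 2 = -1
  · obtain ⟨j, hj⟩ := hi
    refine ⟨⟨(b + 1) / 2, j * ((b - 1) / 2)⟩, ?_⟩
    simp only [nn, mul_pow, hj]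
    ring
  · have hi' : ∀ j : K, j ^ 2 ≠ -1 := fun j hj => hi ⟨j, hj⟩
    have key : ∀ (s : ℕ) (α : Fin s → K), ∃ z : Cx K, nn z = ∑ i, α i ^ 2 := by
      intro s
      induction s with
      | zero =>
        intro α
        exact ⟨0, by simp [nn]⟩
      | succ s ih =>
        intro α
        rw [Fin.sum_univ_succ]
        obtain ⟨β, hβ⟩ := ih fun i => α i.succ
        by_cases h0 : α 0 = 0
        · exact ⟨β, by rw [hβ, h0]; ring⟩
        · -- scale
          set β' : Cx K := (α 0)⁻¹ • β with hβ'
          have h1 : nn β' = (α 0)⁻¹ ^ 2 * nn β := by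
            simp only [hβ', nn, QuadraticAlgebra.re_smul, QuadraticAlgebra.im_smul, smul_eq_mul]
            ring
          by_cases he : 1 + nn β' = 0
          · refine ⟨0, ?_⟩
            rw [← hβ]
            have h2 : α 0 ^ 2 * (1 + nn β') = α 0 ^ 2 + nn β := by
              rw [h1]
              field_simp
            rw [← h2, he]
            simp [nn]
          · obtain ⟨u, v, huv⟩ := claimA R K h hi' (1 + nn β') he β'
            have h2 : (1 + nn β') * (1 + v ^ 2) = 1 + u ^ 2 := by linear_combination huv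
            have h3 : (1 : K) + v ^ 2 ≠ 0 := by
              intro h4
              exact hi' v (by linear_combination h4)
            refine ⟨(α 0 / (1 + v ^ 2)) • (⟨1, u⟩ * ⟨1, -v⟩ : Cx K), ?_⟩
            rw [← hβ]
            have h4 : α 0 ^ 2 + nn β = α 0 ^ 2 * (1 + nn β') := by
              rw [h1]
              field_simp
            have h5 : (1 : K) + nn β' = (1 + u ^ 2) / (1 + v ^ 2) := by
              rw [eq_div_iff h3, h2]
            rw [h4, h5]
            simp only [nn, QuadraticAlgebra.re_smul, QuadraticAlgebra.im_smul, smul_eq_mul,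
              QuadraticAlgebra.re_mul, QuadraticAlgebra.im_mul]
            field_simp
            ring
    obtain ⟨s, α, hα⟩ := hs
    obtain ⟨y, hy⟩ := LW.sum_sq_univ ⟨α, hα⟩ b
    obtain ⟨z, hz⟩ := key _ y
    exact ⟨z, hz.trans hy⟩

end LX
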