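import Pool.Agent.Lib.LX56.Gen

/-!
Several vectors over `K[i]`: every finite system of polynomials in the coordinates of `k` vectors
and their conjugates, homogeneous of total degree `d` and of a nonzero weight for the torus, has a
common zero in nonzero vectors with `m` coordinates, if `m` is larger than `d ^ n` times the number
of the polynomials.
-/

namespace LX

open LW LWR

/-- `z` or its conjugate. -/
def cj {A : Type*} [CommRing A] (z : Cx A) (b : Bool) : Cx A := if b then star z else z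

/-- The torus weight. -/
def wt {d k : ℕ} (σ : Fin d → Fin k × Bool) (a : Fin k) : ℤ :=
  ∑ i, (if (σ i).1 = a then (if (σ i).2 then (-1 : ℤ) else 1) else 0)

theorem weight_ne (d : ℕ) : ∀ {k : ℕ} (χ : Fin k → ℤ), χ ≠ 0 → (∀ a, |χ a| ≤ d) →
    ∑ a : Fin k, ((2 * d + 1 : ℕ) : ℤ) ^ (a : ℕ) * χ a ≠ 0 := by
  intro k
  induction k with
  | zero =>
    intro χ hχ
    exact (hχ (funext fun a => a.elim0)).elim
  | succ k ih =>
    intro χ hχ hd h0
    rw [Fin.sum_univ_succ] at h0
    simp only [Fin.val_zero, pow_zero, one_mul, Fin.val_succ, pow_succ] at h0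
    have h1 : ∑ i : Fin k, ((2 * d + 1 : ℕ) : ℤ) ^ (i : ℕ) * ((2 * d + 1 : ℕ) : ℤ) * χ i.succ =
        ((2 * d + 1 : ℕ) : ℤ) * ∑ i : Fin k, ((2 * d + 1 : ℕ) : ℤ) ^ (i : ℕ) * χ i.succ := by
      rw [Finset.mul_sum]
      exact Finset.sum_congr rfl fun i _ => by ring
    rw [h1] at h0
    set T := ∑ i : Fin k, ((2 * d + 1 : ℕ) : ℤ) ^ (i : ℕ) * χ i.succ with hT
    have h2 : T = 0 := by
      by_contra hT0
      have h3 : (1 : ℤ) ≤ |T| := Int.one_le_abs hT0
      have h4 : |χ 0| = ((2 * d + 1 : ℕ) : ℤ) * |T| := by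
        have : χ 0 = -(((2 * d + 1 : ℕ) : ℤ) * T) := by linarith
        rw [this, abs_neg, abs_mul, Nat.abs_cast]
      have h5 := hd 0
      rw [h4] at h5
      push_cast at h5
      nlinarith
    have h3 : χ 0 = 0 := by rw [h2] at h0; linarith
    by_cases hs : (fun i : Fin k => χ i.succ) = 0
    · apply hχ
      funext a
      refine Fin.cases h3 (fun i => ?_) a
      exact congrFun hs i
    · exact ih (fun i => χ i.succ) hs (fun a => hd a.succ) h2

theorem star_cx {A : Type*} [CommRing A] (z : Cx A) (q : ℕ) : star (z ^ q) = star z ^ q :=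
  star_pow z q

/-- The vectors. -/
theorem kvec (R K : Type) [Field R] [IsRealClosed R] [Field K] [Algebra R K] (n : ℕ)
    (h : Growth R K n) {J : Type} [Fintype J] (k d m : ℕ)
    (S : J → (Fin d → Fin k × Bool) → Bool) (χ : J → Fin k → ℤ) (hχ : ∀ j, χ j ≠ 0)
    (hχd : ∀ j a, |χ j a| ≤ d) (hS : ∀ j σ, S j σ = true → ∀ a, wt σ a = χ j a)
    (c : J → (Fin d → Fin k × Bool) → (Fin d → Fin m) → Cx K)
    (hcard : Fintype.card J * d ^ n < m) :
    ∃ w : Fin k → Fin m → Cx K, (∀ a, w a ≠ 0) ∧ ∀ j,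
      ∑ σ, ∑ τ, (if S j σ then c j σ τ * ∏ i, cj (w (σ i).1 (τ i)) (σ i).2 else 0) = 0 := by
  classical
  let coef : Finset K := (Finset.univ.image fun p : (J × (Fin d → Fin k × Bool)) × (Fin d → Fin m) =>
      (c p.1.1 p.1.2 p.2).re) ∪ Finset.univ.image fun
        p : (J × (Fin d → Fin k × Bool)) × (Fin d → Fin m) => (c p.1.1 p.1.2 p.2).im
  obtain ⟨E, c₀, hE, hM⟩ := h coef d
  obtain ⟨M, hM0, hlt⟩ := exists_M (Fintype.card J) d n m c₀ hcard
  obtain ⟨e, e', hli, hsp⟩ := hM M
  let I := Fin E × (Fin n → Fin M)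
  let I' := Fin E × (Fin n → Fin (c₀ + d * M))
  let ψ := cxMap (algebraMap R K)
  have hC : ∀ (j : J) (σ : Fin d → Fin k × Bool) (τ : Fin d → Fin m) (κ : Fin d → I),
      ∃ C : I' → Cx R, ∑ q, ψ (C q) * algebraMap K (Cx K) (e' q) =
        c j σ τ * algebraMap K (Cx K) (∏ i, e (κ i)) := by
    intro j σ τ κ
    obtain ⟨C1, hC1⟩ := (Submodule.mem_span_range_iff_exists_fun R).1 (hsp (c j σ τ).re
      (Finset.mem_union_left _ (Finset.mem_image.2 ⟨((j, σ), τ), Finset.mem_univ _, rfl⟩)) κ)
    obtain ⟨C2, hC2⟩ := (Submodule.mem_span_range_iff_exists_fun R).1 (hsp (c j σ τ).im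
      (Finset.mem_union_right _ (Finset.mem_image.2 ⟨((j, σ), τ), Finset.mem_univ _, rfl⟩)) κ)
    refine ⟨fun q => ⟨C1 q, C2 q⟩, ?_⟩
    have e1 : (∑ q, ψ (⟨C1 q, C2 q⟩ : Cx R) * algebraMap K (Cx K) (e' q)).re =
        ∑ q, C1 q • e' q := by
      rw [← QuadraticAlgebra.reₗ_apply, map_sum]
      refine Finset.sum_congr rfl fun k _ => ?_
      simp [ψ, cxMap_re, Algebra.smul_def]
    have e2 : (∑ q, ψ (⟨C1 q, C2 q⟩ : Cx R) * algebraMap K (Cx K) (e' q)).im =
        ∑ q, C2 q • e' q := by
      rw [← QuadraticAlgebra.imₗ_apply, map_sum]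
      refine Finset.sum_congr rfl fun k _ => ?_
      simp [ψ, cxMap_im, Algebra.smul_def]
    refine QuadraticAlgebra.ext ?_ ?_
    · rw [e1, hC1, QuadraticAlgebra.re_mul]
      generalize (∏ i, e (κ i)) = P
      simp
    · rw [e2, hC2, QuadraticAlgebra.im_mul]
      generalize (∏ i, e (κ i)) = P
      simp
  choose C hC using hC
  let Q : Fin k → ℕ := fun a => (2 * d + 1) ^ (a : ℕ)
  have hQ : ∀ a, 0 < Q a := fun a => by positivity
  have hcard' : Fintype.card (J × I') < Fintype.card (Fin m × I) := by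
    simp only [I, I', Fintype.card_prod, Fintype.card_fin, Fintype.card_fun]
    calc Fintype.card J * (E * (c₀ + d * M) ^ n) =
        E * (Fintype.card J * (c₀ + d * M) ^ n) := by ring
      _ < E * (m * M ^ n) := Nat.mul_lt_mul_of_pos_left hlt hE
      _ = m * (E * M ^ n) := by ring
  obtain ⟨v, hv0, hv⟩ := gen_rc (ι := Fin m × I) (J := J × I')
    (M := (Fin d → Fin k × Bool) × (Fin d → Fin m) × (Fin d → I)) (D := d) hcard'
    (fun j t => S j.1 t.1) (fun _ t i => (t.2.1 i, t.2.2 i))
    (fun _ t i => if (t.1 i).2 then 0 else Q (t.1 i).1)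
    (fun _ t i => if (t.1 i).2 then Q (t.1 i).1 else 0)
    (fun j => ∑ a : Fin k, ((2 * d + 1 : ℕ) : ℤ) ^ (a : ℕ) * χ j.1 a)
    (fun j => weight_ne d (χ j.1) (hχ j.1) (hχd j.1)) (by
      intro j t ht
      have h1 : ∀ i, ((((if (t.1 i).2 then 0 else Q (t.1 i).1 : ℕ) : ℤ)) -
          ((if (t.1 i).2 then Q (t.1 i).1 else 0 : ℕ) : ℤ)) =
          ∑ a : Fin k, ((2 * d + 1 : ℕ) : ℤ) ^ (a : ℕ) *
            (if (t.1 i).1 = a then (if (t.1 i).2 then (-1 : ℤ) else 1) else 0) := by
        intro i
        rw [Finset.sum_eq_single (t.1 i).1 (fun b _ hb => by rw [if_neg (Ne.symm hb), mul_zero])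
          (fun h => (h (Finset.mem_univ _)).elim), if_pos rfl]
        split_ifs <;> simp [Q]
      rw [Finset.sum_congr rfl fun i _ => h1 i, Finset.sum_comm]
      refine Finset.sum_congr rfl fun a _ => ?_
      rw [← Finset.mul_sum, ← hS j.1 t.1 ht a]
      rfl) R (fun j t => C j.1 t.1 t.2.1 t.2.2 j.2)
  let w : Fin k → Fin m → Cx K := fun a l =>
    ∑ κ : I, ψ (v (l, κ) ^ Q a) * algebraMap K (Cx K) (e κ)
  refine ⟨w, ?_, ?_⟩
  · intro a hw0
    obtain ⟨⟨l, κ⟩, hlκ⟩ := Function.ne_iff.1 hv0
    have hl := congrFun hw0 l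
    have hre := congrArg QuadraticAlgebra.re hl
    have him := congrArg QuadraticAlgebra.im hl
    have e1 : (w a l).re = ∑ k, (v (l, k) ^ Q a).re • e k := by
      simp only [w]
      rw [← QuadraticAlgebra.reₗ_apply, map_sum]
      refine Finset.sum_congr rfl fun k _ => ?_
      generalize v (l, k) ^ Q a = z
      simp [ψ, cxMap_re, Algebra.smul_def]
    have e2 : (w a l).im = ∑ k, (v (l, k) ^ Q a).im • e k := by
      simp only [w]
      rw [← QuadraticAlgebra.imₗ_apply, map_sum]
      refine Finset.sum_congr rfl fun k _ => ?_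
      generalize v (l, k) ^ Q a = z
      simp [ψ, cxMap_im, Algebra.smul_def]
    have h1 := Fintype.linearIndependent_iff.1 hli (fun k => (v (l, k) ^ Q a).re)
      (by rw [← e1]; exact hre) κ
    have h2 := Fintype.linearIndependent_iff.1 hli (fun k => (v (l, k) ^ Q a).im)
      (by rw [← e2]; exact him) κ
    have h3 : v (l, κ) ^ Q a = 0 := QuadraticAlgebra.ext h1 h2
    exact pow_ne_zero _ hlκ h3
  · intro j
    have hterm : ∀ σ τ, (if S j σ then c j σ τ * ∏ i, cj (w (σ i).1 (τ i)) (σ i).2 else 0) =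
        ∑ q : I', (∑ κ : Fin d → I, ψ (if S j σ then C j σ τ κ q *
          mono v (fun i => (τ i, κ i)) (fun i => if (σ i).2 then 0 else Q (σ i).1)
            (fun i => if (σ i).2 then Q (σ i).1 else 0) else 0)) *
            algebraMap K (Cx K) (e' q) := by
      intro σ τ
      by_cases hSj : S j σ = true
      · simp only [if_pos hSj]
        have h3 : ∀ i, cj (w (σ i).1 (τ i)) (σ i).2 = ∑ κ : I, ψ (v (τ i, κ) ^
            (if (σ i).2 then 0 else Q (σ i).1) * star (v (τ i, κ)) ^
            (if (σ i).2 then Q (σ i).1 else 0)) * algebraMap K (Cx K) (e κ) := by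
          intro i
          simp only [cj, w]
          by_cases hb : (σ i).2 = true
          · simp only [if_pos hb, pow_zero, one_mul]
            rw [star_sum]
            refine Finset.sum_congr rfl fun κ _ => ?_
            rw [star_mul', star_alg, ← cxMap_star, star_cx]
          · simp only [if_neg hb, pow_zero, mul_one]
        have h4 : ∏ i, cj (w (σ i).1 (τ i)) (σ i).2 = ∑ κ : Fin d → I,
            ψ (mono v (fun i => (τ i, κ i)) (fun i => if (σ i).2 then 0 else Q (σ i).1)
            (fun i => if (σ i).2 then Q (σ i).1 else 0)) *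
              algebraMap K (Cx K) (∏ i, e (κ i)) := by
          rw [Finset.prod_congr rfl fun i _ => h3 i]
          have h5 := Finset.prod_univ_sum (fun _ : Fin d => (Finset.univ : Finset I))
            (fun i κ => ψ (v (τ i, κ) ^
            (if (σ i).2 then 0 else Q (σ i).1) * star (v (τ i, κ)) ^
            (if (σ i).2 then Q (σ i).1 else 0)) * algebraMap K (Cx K) (e κ))
          rw [Fintype.piFinset_univ] at h5
          rw [h5]
          refine Finset.sum_congr rfl fun κ _ => ?_
          rw [Finset.prod_mul_distrib, mono, map_prod, map_prod]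
        rw [h4, Finset.mul_sum]
        have h6 : ∀ κ : Fin d → I, c j σ τ * (ψ (mono v (fun i => (τ i, κ i))
            (fun i => if (σ i).2 then 0 else Q (σ i).1)
            (fun i => if (σ i).2 then Q (σ i).1 else 0)) *
              algebraMap K (Cx K) (∏ i, e (κ i))) = ∑ q : I', ψ (C j σ τ κ q *
          mono v (fun i => (τ i, κ i)) (fun i => if (σ i).2 then 0 else Q (σ i).1)
            (fun i => if (σ i).2 then Q (σ i).1 else 0)) * algebraMap K (Cx K) (e' q) := by
          intro κ
          rw [mul_left_comm, ← hC j σ τ κ, Finset.mul_sum]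
          refine Finset.sum_congr rfl fun q _ => ?_
          rw [map_mul]
          ring
        rw [Finset.sum_congr rfl fun κ _ => h6 κ, Finset.sum_comm]
        refine Finset.sum_congr rfl fun q _ => ?_
        rw [Finset.sum_mul]
      · simp only [if_neg hSj, map_zero, Finset.sum_const_zero, zero_mul]
    rw [Finset.sum_congr rfl fun σ _ => Finset.sum_congr rfl fun τ _ => hterm σ τ]
    have hq : ∀ q : I', ∑ σ, ∑ τ, ∑ κ : Fin d → I, ψ (if S j σ then C j σ τ κ q *
          mono v (fun i => (τ i, κ i)) (fun i => if (σ i).2 then 0 else Q (σ i).1)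
            (fun i => if (σ i).2 then Q (σ i).1 else 0) else 0) = 0 := by
      intro q
      have h1 := congrArg ψ (hv (j, q))
      rw [map_zero] at h1
      rw [← h1]
      simp only [gen, map_sum]
      rw [Fintype.sum_prod_type]
      refine Finset.sum_congr rfl fun σ _ => ?_
      rw [Fintype.sum_prod_type]
    have h7 : ∑ σ, ∑ τ, ∑ q : I', (∑ κ : Fin d → I, ψ (if S j σ then C j σ τ κ q *
          mono v (fun i => (τ i, κ i)) (fun i => if (σ i).2 then 0 else Q (σ i).1)
            (fun i => if (σ i).2 then Q (σ i).1 else 0) else 0)) *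
            algebraMap K (Cx K) (e' q) = ∑ q : I', (∑ σ, ∑ τ, ∑ κ : Fin d → I,
            ψ (if S j σ then C j σ τ κ q *
          mono v (fun i => (τ i, κ i)) (fun i => if (σ i).2 then 0 else Q (σ i).1)
            (fun i => if (σ i).2 then Q (σ i).1 else 0) else 0)) *
            algebraMap K (Cx K) (e' q) := by
      simp only [Finset.sum_mul]
      rw [Finset.sum_congr rfl fun σ _ => Finset.sum_comm, Finset.sum_comm]
    rw [h7]
    simp only [hq, zero_mul, Finset.sum_const_zero]

end LX
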